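import Pool.Agent.T6.H37.AP.VV

/-!
# Bounds for all lists of admissible directions
-/

set_option autoImplicit false
set_option linter.unusedSectionVars false

namespace Pool.Agent.T6.H37.AP

open Finset Module MvPolynomial

variable {p : ℕ} [hp : Fact p.Prime] {σ : Type} [Fintype σ] [DecidableEq σ]

open Classical in
/-- the tails of length `i` of the lists of length `m` with large rank -/
noncomputable def BB (V : Submodule (ZMod p) (MvPolynomial σ (ZMod p))) (x : σ → ZMod p)
    (m R i : ℕ) : Finset (List.Vector (σ → ZMod p) i) :=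
  univ.filter fun l' => ∃ l₁ : List (σ → ZMod p), l₁.length + i = m ∧ EE V x (l₁ ++ l'.1) ∧
    2 ^ (m - i) * R < finrank (ZMod p) (NN V x (l₁ ++ l'.1))

variable {V : Submodule (ZMod p) (MvPolynomial σ (ZMod p))} {x : σ → ZMod p}

lemma BB_step {m R h i : ℕ} (hi : i < m)
    (hh : ∀ l : List (σ → ZMod p), l.length + 1 = m → EE V x l → finrank (ZMod p) (NN V x l) ≤ h) :
    p ^ Fintype.card σ * (BB V x m R i).card ≤ 2 * p ^ h * (BB V x m R (i + 1)).card := by
  classical
  -- one tail
  have hone : ∀ l' ∈ BB V x m R i, p ^ Fintype.card σ ≤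
      2 * p ^ h * (univ.filter fun w : σ → ZMod p => (w ::ᵥ l') ∈ BB V x m R (i + 1)).card := by
    intro l' hl'
    obtain ⟨l₁, h1, h2, h3⟩ := (mem_filter.1 hl').2
    cases l₁ with
    | nil =>
      simp only [List.length_nil, zero_add] at h1
      omega
    | cons w l₁ =>
      have h1' : l₁.length + (i + 1) = m := by
        rw [List.length_cons] at h1
        omega
      rw [List.cons_append] at h2 h3
      have hl : l'.1.length = i := l'.2
      have h4 := card_orth (NN V x (l₁ ++ l'.1)) (hh (l₁ ++ l'.1) (by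
        rw [List.length_append]
        omega) (EE_tail h2))
      have h5 : (univ.filter fun w : σ → ZMod p => ∀ ν ∈ NN V x (l₁ ++ l'.1), ∑ j, ν j * w j = 0) ⊆
          (univ.filter fun w : σ → ZMod p => (w ::ᵥ l') ∈ BB V x m R (i + 1)) ∪
          (univ.filter fun w' : σ → ZMod p => ((w - w') ::ᵥ l') ∈ BB V x m R (i + 1)) := by
        intro w' hw'
        have e1 : EE V x (w' :: (l₁ ++ l'.1)) := EE_cons.2 ⟨EE_tail h2, (mem_filter.1 hw').2⟩
        have e2 : EE V x ((w - w') :: (l₁ ++ l'.1)) := EE_sub h2 e1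
        rw [mem_union, mem_filter, mem_filter]
        by_contra hcon
        push Not at hcon
        obtain ⟨c1, c2⟩ := hcon
        have c3 := c1 (mem_univ _)
        have c4 := c2 (mem_univ _)
        have key : ∀ z : σ → ZMod p, EE V x (z :: (l₁ ++ l'.1)) →
            (z ::ᵥ l') ∉ BB V x m R (i + 1) →
            finrank (ZMod p) (NN V x (z :: (l₁ ++ l'.1))) ≤ 2 ^ (m - (i + 1)) * R := by
          intro z hz hz'
          by_contra hlt
          push Not at hlt
          apply hz'
          refine mem_filter.2 ⟨mem_univ _, l₁, h1', ?_, ?_⟩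
          · have : (z ::ᵥ l').1 = z :: l'.1 := rfl
            rw [this]
            exact EE_perm List.perm_middle.symm hz
          · have : (z ::ᵥ l').1 = z :: l'.1 := rfl
            rw [this, NN_perm (V := V) (x := x) (l := l₁ ++ z :: l'.1)
              (l' := z :: (l₁ ++ l'.1)) List.perm_middle]
            exact hlt
        have k1 := key w' e1 c3
        have k2 := key (w - w') e2 c4
        have k3 := NN_add_le (V := V) (x := x) w' (w - w') (l₁ ++ l'.1)
        rw [add_sub_cancel] at k3
        have k4 : 2 ^ (m - i) * R = 2 ^ (m - (i + 1)) * R + 2 ^ (m - (i + 1)) * R := by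
          have : m - i = (m - (i + 1)) + 1 := by omega
          rw [this, pow_succ]
          ring
        omega
      have h6 : (univ.filter fun w' : σ → ZMod p => ((w - w') ::ᵥ l') ∈ BB V x m R (i + 1)).card =
          (univ.filter fun w : σ → ZMod p => (w ::ᵥ l') ∈ BB V x m R (i + 1)).card := by
        apply Finset.card_bij (fun w' _ => w - w')
        · intro w' hw'
          exact mem_filter.2 ⟨mem_univ _, (mem_filter.1 hw').2⟩
        · intro a _ b _ hab
          exact sub_right_injective hab
        · intro b hb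
          refine ⟨w - b, mem_filter.2 ⟨mem_univ _, ?_⟩, sub_sub_cancel w b⟩
          rw [sub_sub_cancel]
          exact (mem_filter.1 hb).2
      have h7 := (Finset.card_le_card h5).trans (Finset.card_union_le _ _)
      rw [h6] at h7
      calc p ^ Fintype.card σ ≤ p ^ h * _ := h4
        _ ≤ p ^ h * (2 * (univ.filter fun w : σ → ZMod p =>
            (w ::ᵥ l') ∈ BB V x m R (i + 1)).card) := by
          apply Nat.mul_le_mul_left
          omega
        _ = _ := by ring
  have hsum : ∑ l' ∈ BB V x m R i,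
      (univ.filter fun w : σ → ZMod p => (w ::ᵥ l') ∈ BB V x m R (i + 1)).card ≤
      (BB V x m R (i + 1)).card := by
    rw [← Finset.card_sigma]
    apply Finset.card_le_card_of_injOn (fun q => q.2 ::ᵥ q.1)
    · intro q hq
      have := (Finset.mem_sigma.1 hq).2
      exact (mem_filter.1 this).2
    · intro q _ q' _ he
      have h1 : q.2 = q'.2 := by
        have := congrArg List.Vector.head he
        simpa using this
      have h2 : q.1 = q'.1 := by
        have := congrArg List.Vector.tail he
        simpa using this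
      exact Sigma.ext h2 (heq_of_eq h1)
  calc p ^ Fintype.card σ * (BB V x m R i).card
      = ∑ _l' ∈ BB V x m R i, p ^ Fintype.card σ := by
        rw [Finset.sum_const, smul_eq_mul, mul_comm]
    _ ≤ ∑ l' ∈ BB V x m R i, 2 * p ^ h *
        (univ.filter fun w : σ → ZMod p => (w ::ᵥ l') ∈ BB V x m R (i + 1)).card :=
        Finset.sum_le_sum hone
    _ = 2 * p ^ h * ∑ l' ∈ BB V x m R i,
        (univ.filter fun w : σ → ZMod p => (w ::ᵥ l') ∈ BB V x m R (i + 1)).card := by
        rw [Finset.mul_sum]
    _ ≤ _ := Nat.mul_le_mul_left _ hsum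

lemma BB_all {m R h : ℕ}
    (hh : ∀ l : List (σ → ZMod p), l.length + 1 = m → EE V x l → finrank (ZMod p) (NN V x l) ≤ h)
    (i : ℕ) (hi : i ≤ m) :
    (p ^ Fintype.card σ) ^ i * (BB V x m R 0).card ≤ (2 * p ^ h) ^ i * (BB V x m R i).card := by
  induction i with
  | zero => simp
  | succ i ih =>
    have h1 := ih (by omega)
    have h2 := BB_step (R := R) (i := i) (by omega) hh
    calc (p ^ Fintype.card σ) ^ (i + 1) * (BB V x m R 0).card
        = p ^ Fintype.card σ * ((p ^ Fintype.card σ) ^ i * (BB V x m R 0).card) := by ring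
      _ ≤ p ^ Fintype.card σ * ((2 * p ^ h) ^ i * (BB V x m R i).card) :=
          Nat.mul_le_mul_left _ h1
      _ = (2 * p ^ h) ^ i * (p ^ Fintype.card σ * (BB V x m R i).card) := by ring
      _ ≤ (2 * p ^ h) ^ i * (2 * p ^ h * (BB V x m R (i + 1)).card) := Nat.mul_le_mul_left _ h2
      _ = _ := by ring

open Classical in
/-- the lists of length `m` with large rank -/
noncomputable def Bad (V : Submodule (ZMod p) (MvPolynomial σ (ZMod p))) (x : σ → ZMod p)
    (m R : ℕ) : Finset (List.Vector (σ → ZMod p) m) :=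
  univ.filter fun l => EE V x l.1 ∧ R ≤ finrank (ZMod p) (NN V x l.1)

/-- few lists of large rank: no list of very large rank -/
lemma bad_large {m R h : ℕ}
    (hh : ∀ l : List (σ → ZMod p), l.length + 1 = m → EE V x l → finrank (ZMod p) (NN V x l) ≤ h)
    (hne : ∃ l : List (σ → ZMod p), l.length = m ∧ EE V x l ∧
      2 ^ m * R < finrank (ZMod p) (NN V x l)) :
    (p ^ Fintype.card σ) ^ m ≤ (2 * p ^ h) ^ m * (Bad V x m R).card := by
  classical
  have h1 := BB_all (R := R) hh m le_rfl
  have h2 : 1 ≤ (BB V x m R 0).card := by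
    obtain ⟨l, a1, a2, a3⟩ := hne
    rw [Nat.one_le_iff_ne_zero, Finset.card_ne_zero]
    refine ⟨List.Vector.nil, mem_filter.2 ⟨mem_univ _, l, by simpa using a1, ?_, ?_⟩⟩
    · have : (List.Vector.nil : List.Vector (σ → ZMod p) 0).1 = [] := rfl
      rw [this, List.append_nil]
      exact a2
    · have : (List.Vector.nil : List.Vector (σ → ZMod p) 0).1 = [] := rfl
      rw [this, List.append_nil, Nat.sub_zero]
      exact a3
  have h3 : (BB V x m R m).card ≤ (Bad V x m R).card := by
    apply Finset.card_le_card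
    intro l hl
    obtain ⟨l₁, b1, b2, b3⟩ := (mem_filter.1 hl).2
    have h4 : l₁ = [] := List.eq_nil_of_length_eq_zero (by omega)
    subst h4
    rw [List.nil_append] at b2 b3
    rw [Nat.sub_self, pow_zero, one_mul] at b3
    exact mem_filter.2 ⟨mem_univ _, b2, b3.le⟩
  calc (p ^ Fintype.card σ) ^ m = (p ^ Fintype.card σ) ^ m * 1 := (mul_one _).symm
    _ ≤ (p ^ Fintype.card σ) ^ m * (BB V x m R 0).card := Nat.mul_le_mul_left _ h2
    _ ≤ _ := h1
    _ ≤ _ := Nat.mul_le_mul_left _ h3

open Classical in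
lemma sum_bad {D b : ℕ} (hp3 : 3 ≤ p)
    (hb : ∀ r : ℕ, Np p (Fin (b * r)) (b * r * D / 2) * p ^ r ≤ p ^ (b * r))
    (A : Finset (σ → ZMod p)) (hV : ∀ g ∈ V, g.totalDegree ≤ D + 1) (m r : ℕ) :
    (∑ x ∈ A, (Bad V x m (b * r)).card) * p ^ r ≤
      8 * p ^ Fintype.card σ * (p ^ Fintype.card σ) ^ m := by
  have h1 : ∑ x ∈ A, (Bad V x m (b * r)).card = ∑ l : List.Vector (σ → ZMod p) m,
      (A.filter fun x => EE V x l.1 ∧ b * r ≤ finrank (ZMod p) (NN V x l.1)).card := by
    unfold Bad
    simp only [Finset.card_filter]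
    exact Finset.sum_comm
  have h2 : ∀ l : List.Vector (σ → ZMod p) m,
      (A.filter fun x => EE V x l.1 ∧ b * r ≤ finrank (ZMod p) (NN V x l.1)).card * p ^ r ≤
        8 * p ^ Fintype.card σ := by
    intro l
    set S := A.filter fun x => EE V x l.1 ∧ b * r ≤ finrank (ZMod p) (NN V x l.1) with hS
    have h3 := rank_count (D := D) (r := b * r) hp3 (VV V l.1) (VV_totalDegree V hV l.1) S
      (fun x hx => (mem_filter.1 hx).2.1) (fun x hx => (mem_filter.1 hx).2.2)
    have h4 : S.card * p ^ r * p ^ (b * r) ≤ 8 * p ^ Fintype.card σ * p ^ (b * r) := by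
      calc S.card * p ^ r * p ^ (b * r) = S.card * p ^ (b * r) * p ^ r := by ring
        _ ≤ 8 * p ^ Fintype.card σ * Np p (Fin (b * r)) (b * r * D / 2) * p ^ r :=
          Nat.mul_le_mul_right _ h3
        _ = 8 * p ^ Fintype.card σ * (Np p (Fin (b * r)) (b * r * D / 2) * p ^ r) := by ring
        _ ≤ _ := Nat.mul_le_mul_left _ (hb r)
    exact Nat.le_of_mul_le_mul_right h4 (pow_pos hp.out.pos _)
  rw [h1, Finset.sum_mul]
  refine (Finset.sum_le_sum fun l _ => h2 l).trans (le_of_eq ?_)
  rw [Finset.sum_const, smul_eq_mul, Finset.card_univ, card_vector, Fintype.card_fun, ZMod.card]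
  ring

end Pool.Agent.T6.H37.AP
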