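import Pool.Agent.T6.H37.AP.Poly
import Pool.Agent.TH360.RS.Diag

/-!
# The rank method for two and three points
-/

set_option autoImplicit false
set_option linter.unusedSectionVars false

namespace Pool.Agent.T6.H37.AP

open Finset Module

section lin

variable {F I : Type*} [Field F] [Fintype I]

/-- The rank of a diagonal matrix, in terms of subspaces of functions -/
theorem diag_two (f₁ f₂ : I → I → F) (L₁ L₂ : Submodule F (I → F))
    (h₁ : ∀ j, (fun i => f₁ i j) ∈ L₁) (h₂ : ∀ i, (fun j => f₂ i j) ∈ L₂)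
    (hd : ∀ i j, i ≠ j → f₁ i j + f₂ i j = 0) (hd' : ∀ i, f₁ i i + f₂ i i ≠ 0) :
    Fintype.card I ≤ finrank F L₁ + finrank F L₂ := by
  classical
  have h0 := TH360.RS.finrank_ker_pair L₁
  let Φ : LinearMap.ker (TH360.RS.pair L₁) →ₗ[F] L₂ :=
    { toFun := fun v => ⟨fun j => ∑ i, (v : I → F) i * f₂ i j, by
        have e : (fun j => ∑ i, (v : I → F) i * f₂ i j) =
            ∑ i, (v : I → F) i • (fun j => f₂ i j) := by
          funext j
          simp [Finset.sum_apply]
        rw [e]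
        exact L₂.sum_mem fun i _ => L₂.smul_mem _ (h₂ i)⟩
      map_add' := fun v w => by ext j; simp [add_mul, sum_add_distrib]
      map_smul' := fun c v => by ext j; simp [mul_sum, mul_assoc] }
  have key : ∀ (v : LinearMap.ker (TH360.RS.pair L₁)) (j : I),
      ((Φ v : L₂) : I → F) j = (v : I → F) j * (f₁ j j + f₂ j j) := by
    intro v j
    change ∑ i, (v : I → F) i * f₂ i j = _
    have e1 : ∑ i, (v : I → F) i * f₁ i j = 0 := by
      have h3 : TH360.RS.pair L₁ (v : I → F) ⟨_, h₁ j⟩ = 0 := by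
        rw [LinearMap.mem_ker.1 v.2]
        rfl
      rw [TH360.RS.pair_apply] at h3
      exact h3
    have e2 : ∑ i, (v : I → F) i * (f₁ i j + f₂ i j) = (v : I → F) j * (f₁ j j + f₂ j j) := by
      apply Finset.sum_eq_single j
      · intro i _ hij
        rw [hd i j hij, mul_zero]
      · intro h
        exact absurd (mem_univ j) h
    rw [← e2]
    simp only [mul_add, sum_add_distrib, e1, zero_add]
  have hinj : Function.Injective Φ := by
    intro v w hvw
    ext j
    have h1 := congrFun (congrArg Subtype.val hvw) j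
    rw [key, key] at h1
    exact mul_right_cancel₀ (hd' j) h1
  have h2 := LinearMap.finrank_le_finrank_of_injective hinj
  omega

end lin

variable {p : ℕ} [hp : Fact p.Prime]

/-- restriction to a finite set -/
def res (p : ℕ) {σ : Type} (S : Finset (σ → ZMod p)) :
    ((σ → ZMod p) → ZMod p) →ₗ[ZMod p] (S → ZMod p) where
  toFun f := fun s => f s.1
  map_add' _ _ := rfl
  map_smul' _ _ := rfl

section

variable {σ : Type} [Fintype σ] [DecidableEq σ]

lemma finrank_res_le (S : Finset (σ → ZMod p)) (D : ℕ) :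
    finrank (ZMod p) ((PF p σ D).map (res p S)) ≤ Np p σ D :=
  (Submodule.finrank_map_le _ _).trans (finrank_PF_le D)

lemma split_two {D : ℕ} {f : (σ ⊕ σ → ZMod p) → ZMod p} (hf : f ∈ PF p (σ ⊕ σ) D) :
    ∃ f₁ f₂ : (σ → ZMod p) → (σ → ZMod p) → ZMod p,
      (∀ x', (fun x => f₁ x x') ∈ PF p σ (D / 2)) ∧ (∀ x, (fun x' => f₂ x x') ∈ PF p σ (D / 2)) ∧
      ∀ x x', f (Sum.elim x x') = f₁ x x' + f₂ x x' := by
  unfold PF at hf
  induction hf using Submodule.span_induction with
  | mem f hf =>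
    obtain ⟨m, hm, rfl⟩ := hf
    have e : ∀ x x' : σ → ZMod p, mono p m (Sum.elim x x') =
        mono p (fun i => m (Sum.inl i)) x * mono p (fun i => m (Sum.inr i)) x' := by
      intro x x'
      simp [mono, Fintype.prod_sum_type]
    rw [Fintype.sum_sum_type] at hm
    by_cases h : ∑ i, m (Sum.inl i) ≤ D / 2
    · refine ⟨fun x x' => mono p m (Sum.elim x x'), fun _ _ => 0, ?_, ?_, ?_⟩
      · intro x'
        simp only [e]
        have := smul_mem (mono p (fun i => m (Sum.inr i)) x') (mono_mem (p := p) h)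
        simpa only [mul_comm] using this
      · exact fun _ => Submodule.zero_mem _
      · intro x x'
        rw [add_zero]
    · refine ⟨fun _ _ => 0, fun x x' => mono p m (Sum.elim x x'), ?_, ?_, ?_⟩
      · exact fun _ => Submodule.zero_mem _
      · intro x
        simp only [e]
        exact smul_mem _ (mono_mem (by omega))
      · intro x x'
        rw [zero_add]
  | zero =>
    exact ⟨fun _ _ => 0, fun _ _ => 0, fun _ => Submodule.zero_mem _, fun _ => Submodule.zero_mem _,
      fun _ _ => by simp⟩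
  | add f g _ _ h h' =>
    obtain ⟨f₁, f₂, a1, a2, a3⟩ := h
    obtain ⟨g₁, g₂, b1, b2, b3⟩ := h'
    refine ⟨fun x x' => f₁ x x' + g₁ x x', fun x x' => f₂ x x' + g₂ x x',
      fun x' => add_mem (a1 x') (b1 x'), fun x => add_mem (a2 x) (b2 x), fun x x' => ?_⟩
    rw [Pi.add_apply, a3, b3]
    ring
  | smul a f _ h =>
    obtain ⟨f₁, f₂, a1, a2, a3⟩ := h
    refine ⟨fun x x' => a * f₁ x x', fun x x' => a * f₂ x x',
      fun x' => smul_mem a (a1 x'), fun x => smul_mem a (a2 x), fun x x' => ?_⟩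
    rw [Pi.smul_apply, a3, smul_eq_mul]
    ring

lemma split_three {D : ℕ} {f : (σ ⊕ σ ⊕ σ → ZMod p) → ZMod p} (hf : f ∈ PF p (σ ⊕ σ ⊕ σ) D) :
    ∃ f₁ f₂ f₃ : (σ → ZMod p) → (σ → ZMod p) → (σ → ZMod p) → ZMod p,
      (∀ y z, (fun x => f₁ x y z) ∈ PF p σ (D / 3)) ∧
      (∀ x z, (fun y => f₂ x y z) ∈ PF p σ (D / 3)) ∧
      (∀ x y, (fun z => f₃ x y z) ∈ PF p σ (D / 3)) ∧
      ∀ x y z, f (Sum.elim x (Sum.elim y z)) = f₁ x y z + f₂ x y z + f₃ x y z := by
  unfold PF at hf
  induction hf using Submodule.span_induction with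
  | mem f hf =>
    obtain ⟨m, hm, rfl⟩ := hf
    have e : ∀ x y z : σ → ZMod p, mono p m (Sum.elim x (Sum.elim y z)) =
        mono p (fun i => m (Sum.inl i)) x * (mono p (fun i => m (Sum.inr (Sum.inl i))) y *
        mono p (fun i => m (Sum.inr (Sum.inr i))) z) := by
      intro x y z
      simp [mono, Fintype.prod_sum_type]
    rw [Fintype.sum_sum_type, Fintype.sum_sum_type] at hm
    by_cases h : ∑ i, m (Sum.inl i) ≤ D / 3
    · refine ⟨fun x y z => mono p m (Sum.elim x (Sum.elim y z)), fun _ _ _ => 0, fun _ _ _ => 0,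
        ?_, fun _ _ => Submodule.zero_mem _, fun _ _ => Submodule.zero_mem _, ?_⟩
      · intro y z
        simp only [e]
        have := smul_mem (mono p (fun i => m (Sum.inr (Sum.inl i))) y *
          mono p (fun i => m (Sum.inr (Sum.inr i))) z) (mono_mem (p := p) h)
        simpa only [mul_comm] using this
      · intro x y z
        ring
    · by_cases h2 : ∑ i, m (Sum.inr (Sum.inl i)) ≤ D / 3
      · refine ⟨fun _ _ _ => 0, fun x y z => mono p m (Sum.elim x (Sum.elim y z)), fun _ _ _ => 0,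
          fun _ _ => Submodule.zero_mem _, ?_, fun _ _ => Submodule.zero_mem _, ?_⟩
        · intro x z
          simp only [e]
          have := smul_mem (mono p (fun i => m (Sum.inl i)) x *
            mono p (fun i => m (Sum.inr (Sum.inr i))) z) (mono_mem (p := p) h2)
          convert this using 2 with y
          ring
        · intro x y z
          ring
      · refine ⟨fun _ _ _ => 0, fun _ _ _ => 0, fun x y z => mono p m (Sum.elim x (Sum.elim y z)),
          fun _ _ => Submodule.zero_mem _, fun _ _ => Submodule.zero_mem _, ?_, ?_⟩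
        · intro x y
          simp only [e]
          have := smul_mem (mono p (fun i => m (Sum.inl i)) x *
            mono p (fun i => m (Sum.inr (Sum.inl i))) y)
            (mono_mem (p := p) (D := D / 3) (m := fun i => m (Sum.inr (Sum.inr i))) (by omega))
          convert this using 2 with z
          ring
        · intro x y z
          ring
  | zero =>
    exact ⟨fun _ _ _ => 0, fun _ _ _ => 0, fun _ _ _ => 0, fun _ _ => Submodule.zero_mem _,
      fun _ _ => Submodule.zero_mem _, fun _ _ => Submodule.zero_mem _, fun _ _ _ => by simp⟩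
  | add f g _ _ h h' =>
    obtain ⟨f₁, f₂, f₃, a1, a2, a3, a4⟩ := h
    obtain ⟨g₁, g₂, g₃, b1, b2, b3, b4⟩ := h'
    refine ⟨fun x y z => f₁ x y z + g₁ x y z, fun x y z => f₂ x y z + g₂ x y z,
      fun x y z => f₃ x y z + g₃ x y z,
      fun y z => add_mem (a1 y z) (b1 y z), fun x z => add_mem (a2 x z) (b2 x z),
      fun x y => add_mem (a3 x y) (b3 x y), fun x y z => ?_⟩
    rw [Pi.add_apply, a4, b4]
    ring
  | smul a f _ h =>
    obtain ⟨f₁, f₂, f₃, a1, a2, a3, a4⟩ := h
    refine ⟨fun x y z => a * f₁ x y z, fun x y z => a * f₂ x y z, fun x y z => a * f₃ x y z,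
      fun y z => smul_mem a (a1 y z), fun x z => smul_mem a (a2 x z),
      fun x y => smul_mem a (a3 x y), fun x y z => ?_⟩
    rw [Pi.smul_apply, a4, smul_eq_mul]
    ring

/-- the Croot-Lev-Pach bound -/
theorem two_point (S : Finset (σ → ZMod p)) {D : ℕ} {f : (σ ⊕ σ → ZMod p) → ZMod p}
    (hf : f ∈ PF p (σ ⊕ σ) D) (h1 : ∀ x ∈ S, f (Sum.elim x x) ≠ 0)
    (h2 : ∀ x ∈ S, ∀ x' ∈ S, x ≠ x' → f (Sum.elim x x') = 0) : S.card ≤ 2 * Np p σ (D / 2) := by
  obtain ⟨f₁, f₂, a1, a2, a3⟩ := split_two hf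
  have h := diag_two (I := S) (fun x x' => f₁ x.1 x'.1) (fun x x' => f₂ x.1 x'.1)
    ((PF p σ (D / 2)).map (res p S)) ((PF p σ (D / 2)).map (res p S))
    (fun x' => ⟨_, a1 x'.1, rfl⟩) (fun x => ⟨_, a2 x.1, rfl⟩)
    (fun x x' hx => by
      rw [← a3]
      exact h2 x.1 x.2 x'.1 x'.2 (fun h => hx (Subtype.ext h)))
    (fun x => by
      rw [← a3]
      exact h1 x.1 x.2)
  rw [Fintype.card_coe] at h
  have h3 := finrank_res_le S (D / 2)
  omega

/-- the slice rank bound -/
theorem three_point (S : Finset (σ → ZMod p)) {D : ℕ} {f : (σ ⊕ σ ⊕ σ → ZMod p) → ZMod p}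
    (hf : f ∈ PF p (σ ⊕ σ ⊕ σ) D) (h1 : ∀ x ∈ S, f (Sum.elim x (Sum.elim x x)) = 1)
    (h2 : ∀ x ∈ S, ∀ y ∈ S, ∀ z ∈ S, ¬ (x = y ∧ y = z) → f (Sum.elim x (Sum.elim y z)) = 0) :
    S.card ≤ 3 * Np p σ (D / 3) := by
  classical
  obtain ⟨f₁, f₂, f₃, a1, a2, a3, a4⟩ := split_three hf
  have h := TH360.RS.diag_bound (I := S) (fun x y z => f₁ x.1 y.1 z.1) (fun x y z => f₂ x.1 y.1 z.1)
    (fun x y z => f₃ x.1 y.1 z.1)
    ((PF p σ (D / 3)).map (res p S)) ((PF p σ (D / 3)).map (res p S))
    ((PF p σ (D / 3)).map (res p S))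
    (fun y z => ⟨_, a1 y.1 z.1, rfl⟩) (fun x z => ⟨_, a2 x.1 z.1, rfl⟩)
    (fun x y => ⟨_, a3 x.1 y.1, rfl⟩)
    (fun x y z => by
      rw [← a4]
      split_ifs with h
      · obtain ⟨rfl, rfl⟩ := h
        exact h1 x.1 x.2
      · apply h2 x.1 x.2 y.1 y.2 z.1 z.2
        rintro ⟨h3, h4⟩
        exact h ⟨Subtype.ext h3, Subtype.ext h4⟩)
  rw [Fintype.card_coe] at h
  have h3 := finrank_res_le S (D / 3)
  omega

end

end Pool.Agent.T6.H37.AP
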