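import Pool.Agent.T6.H37.AP.Poly

/-!
# The exponential rate of the number of monomials
-/

set_option autoImplicit false
set_option linter.unusedSectionVars false

namespace Pool.Agent.T6.H37.AP

open Finset Filter Topology

lemma exists_s (p D : ℕ) (hD : D + 1 < p) :
    ∃ s : ℝ, 0 < s ∧ s < 1 ∧ ∑ i ∈ range p, s ^ (2 * i) < p * s ^ D := by
  set f : ℝ → ℝ := fun s => p * s ^ D - ∑ i ∈ range p, s ^ (2 * i) with hf
  have hder : HasDerivAt f (p * ((D : ℝ) * 1 ^ (D - 1)) -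
      ∑ i ∈ range p, ((2 * i : ℕ) : ℝ) * 1 ^ (2 * i - 1)) 1 := by
    apply HasDerivAt.sub
    · exact (hasDerivAt_pow D 1).const_mul _
    · exact HasDerivAt.fun_sum fun i _ => hasDerivAt_pow (2 * i) 1
  have hval : p * ((D : ℝ) * 1 ^ (D - 1)) -
      ∑ i ∈ range p, ((2 * i : ℕ) : ℝ) * 1 ^ (2 * i - 1) < 0 := by
    simp only [one_pow, mul_one]
    have h1 : ∑ i ∈ range p, ((2 * i : ℕ) : ℝ) = p * (p - 1) := by
      have h2 : ∑ i ∈ range p, (2 * i) = p * (p - 1) := by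
        rw [← Finset.mul_sum, mul_comm, Finset.sum_range_id_mul_two]
      have h3 : ((∑ i ∈ range p, (2 * i) : ℕ) : ℝ) = ((p * (p - 1) : ℕ) : ℝ) := by rw [h2]
      rw [Nat.cast_sum] at h3
      rw [h3, Nat.cast_mul, Nat.cast_sub (by omega), Nat.cast_one]
    rw [h1]
    have h4 : (D : ℝ) + 1 < p := by exact_mod_cast hD
    have h5 : (0 : ℝ) < p := by linarith [(Nat.cast_nonneg D : (0 : ℝ) ≤ D)]
    nlinarith
  have hf1 : f 1 = 0 := by simp [hf]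
  have h1 := hasDerivAt_iff_tendsto_slope.1 hder
  have h2 : ∀ᶠ s in 𝓝[≠] (1 : ℝ), slope f 1 s < 0 := h1.eventually_lt_const hval
  have h3 : ∀ᶠ s in 𝓝[<] (1 : ℝ), slope f 1 s < 0 :=
    h2.filter_mono (nhdsWithin_mono _ fun s hs => ne_of_lt hs)
  have h4 : ∀ᶠ s in 𝓝[<] (1 : ℝ), s < 1 := eventually_mem_nhdsWithin
  have h5 : ∀ᶠ s in 𝓝[<] (1 : ℝ), 0 < s :=
    (eventually_gt_nhds (by norm_num : (0 : ℝ) < 1)).filter_mono nhdsWithin_le_nhds
  obtain ⟨s, hs1, hs2, hs3⟩ := (h3.and (h4.and h5)).exists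
  refine ⟨s, hs3, hs2, ?_⟩
  rw [slope_def_field, hf1, sub_zero, div_lt_iff_of_neg (by linarith), zero_mul] at hs1
  simp only [hf] at hs1
  linarith

lemma exists_b (p D : ℕ) [Fact p.Prime] (hD : D + 1 < p) :
    ∃ b : ℕ, 1 ≤ b ∧ ∀ r : ℕ, Np p (Fin (b * r)) (b * r * D / 2) * p ^ r ≤ p ^ (b * r) := by
  obtain ⟨s, hs0, hs1, hs2⟩ := exists_s p D hD
  have hp0 : (0 : ℝ) < p := by
    have : 0 < p := by omega
    exact_mod_cast this
  set Sg := ∑ i ∈ range p, s ^ (2 * i) with hSg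
  have hSg0 : 0 ≤ Sg := Finset.sum_nonneg fun i _ => pow_nonneg hs0.le _
  have hsD : 0 < s ^ D := pow_pos hs0 D
  set ρ := Sg / s ^ D with hρ
  have hρ0 : 0 ≤ ρ := div_nonneg hSg0 hsD.le
  have hρp : ρ < p := by
    rw [hρ, div_lt_iff₀ hsD]
    exact hs2
  have hN : ∀ k : ℕ, (Np p (Fin k) (k * D / 2) : ℝ) ≤ ρ ^ k := by
    intro k
    have h1 := chernoff (p := p) (τ := Fin k) (k * D / 2) (s ^ 2) (by positivity)
      (pow_le_one₀ hs0.le hs1.le)
    rw [Fintype.card_fin] at h1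
    have h2 : ∑ i ∈ range p, (s ^ 2) ^ i = Sg := by
      rw [hSg]
      exact Finset.sum_congr rfl fun i _ => by rw [← pow_mul]
    rw [h2, ← pow_mul] at h1
    have h3 : s ^ (k * D) ≤ s ^ (2 * (k * D / 2)) :=
      pow_le_pow_of_le_one hs0.le hs1.le (by omega)
    rw [hρ, div_pow, le_div_iff₀ (pow_pos hsD k), ← pow_mul, mul_comm D k]
    exact (mul_le_mul_of_nonneg_left h3 (Nat.cast_nonneg _)).trans h1
  obtain ⟨b, hb⟩ : ∃ b : ℕ, (ρ / p) ^ b < 1 / p :=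
    exists_pow_lt_of_lt_one (by positivity) ((div_lt_one hp0).2 hρp)
  have hb1 : 1 ≤ b := by
    rw [Nat.one_le_iff_ne_zero]
    rintro rfl
    rw [pow_zero, lt_div_iff₀ hp0, one_mul] at hb
    have : (2 : ℝ) ≤ p := by
      have : 2 ≤ p := by omega
      exact_mod_cast this
    linarith
  refine ⟨b, hb1, fun r => ?_⟩
  have h1 : ρ ^ b * p ≤ p ^ b := by
    rw [div_pow, div_lt_div_iff₀ (pow_pos hp0 b) hp0, one_mul] at hb
    exact hb.le
  have h2 : (Np p (Fin (b * r)) (b * r * D / 2) : ℝ) * p ^ r ≤ p ^ (b * r) := by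
    calc (Np p (Fin (b * r)) (b * r * D / 2) : ℝ) * p ^ r ≤ ρ ^ (b * r) * p ^ r :=
          mul_le_mul_of_nonneg_right (hN _) (by positivity)
      _ = (ρ ^ b * p) ^ r := by rw [mul_pow, pow_mul]
      _ ≤ (p ^ b) ^ r := pow_le_pow_left₀ (mul_nonneg (pow_nonneg hρ0 b) hp0.le) h1 r
      _ = p ^ (b * r) := by rw [← pow_mul]
  exact_mod_cast h2

end Pool.Agent.T6.H37.AP
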