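import Pool.Agent.T6.H37.AP.DiagDir
import Pool.Agent.T6.H37.AP.All
import Pool.Agent.T6.H37.AP.Rate

/-!
# Dense sets: the closure of degree `d` contains lines
-/

set_option autoImplicit false
set_option linter.unusedSectionVars false

namespace Pool.Agent.T6.H37.AP

open Finset Module MvPolynomial

variable {p : ℕ} [hp : Fact p.Prime] {σ : Type} [Fintype σ] [DecidableEq σ]

/-- a function of small degree is not supported at one point -/
lemma sum_eq_zero {D : ℕ} (hD : D < Fintype.card σ * (p - 1)) {f : (σ → ZMod p) → ZMod p}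
    (hf : f ∈ PF p σ D) : ∑ x, f x = 0 := by
  classical
  unfold PF at hf
  induction hf using Submodule.span_induction with
  | mem f hf =>
    obtain ⟨m, hm, rfl⟩ := hf
    obtain ⟨i, hi⟩ : ∃ i, m i < p - 1 := by
      by_contra hcon
      push Not at hcon
      have h1 : ∑ _i : σ, (p - 1) ≤ ∑ i, m i := Finset.sum_le_sum fun i _ => hcon i
      rw [Finset.sum_const, smul_eq_mul, Finset.card_univ] at h1
      omega
    have h1 : ∑ x : σ → ZMod p, ∏ i, x i ^ m i = ∏ i, ∑ a : ZMod p, a ^ m i := by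
      rw [Finset.prod_univ_sum, Fintype.piFinset_univ]
    change ∑ x : σ → ZMod p, ∏ i, x i ^ m i = 0
    rw [h1]
    apply Finset.prod_eq_zero (mem_univ i)
    apply FiniteField.sum_pow_lt_card_sub_one
    rwa [ZMod.card]
  | zero => simp
  | add f g _ _ hf hg =>
    simp only [Pi.add_apply, Finset.sum_add_distrib, hf, hg, add_zero]
  | smul a f _ hf =>
    simp only [Pi.smul_apply, smul_eq_mul, ← Finset.mul_sum, hf, mul_zero]

lemma exists_ne_zero {D : ℕ} (hD : D < Fintype.card σ * (p - 1)) {f : (σ → ZMod p) → ZMod p}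
    (hf : f ∈ PF p σ D) (h0 : f 0 ≠ 0) : ∃ u, u ≠ 0 ∧ f u ≠ 0 := by
  by_contra hcon
  push Not at hcon
  apply h0
  rw [← sum_eq_zero hD hf]
  exact (Finset.sum_eq_single 0 (fun u _ hu => hcon u hu) (fun h => absurd (mem_univ _) h)).symm

/-- the restriction to a line -/
noncomputable def ln (x u : σ → ZMod p) : MvPolynomial σ (ZMod p) →ₐ[ZMod p] Polynomial (ZMod p) :=
  aeval fun j => Polynomial.C (x j) + Polynomial.C (u j) * Polynomial.X

lemma ln_eval (x u : σ → ZMod p) (g : MvPolynomial σ (ZMod p)) (t : ZMod p) :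
    (ln x u g).eval t = eval (x + t • u) g := by
  induction g using MvPolynomial.induction_on with
  | C a => simp [ln]
  | add f g hf hg => rw [map_add, Polynomial.eval_add, hf, hg, map_add]
  | mul_X f k hf =>
    rw [map_mul, Polynomial.eval_mul, hf, map_mul, eval_X]
    congr 1
    simp only [ln, aeval_X, Polynomial.eval_add, Polynomial.eval_C, Polynomial.eval_mul,
      Polynomial.eval_X, Pi.add_apply, Pi.smul_apply, smul_eq_mul]
    ring

lemma ln_derivative (x u : σ → ZMod p) (g : MvPolynomial σ (ZMod p)) :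
    Polynomial.derivative (ln x u g) = ln x u (dd u g) := by
  induction g using MvPolynomial.induction_on with
  | C a => simp [ln, dd_apply]
  | add f g hf hg => rw [map_add, map_add, hf, hg, map_add, map_add]
  | mul_X f k hf =>
    have h1 : dd u (f * X k) = dd u f * X k + C (u k) * f := by
      simp only [dd_apply, Derivation.leibniz, smul_eq_mul, pderiv_X, smul_add,
        Finset.sum_add_distrib]
      rw [add_comm]
      congr 1
      · rw [Finset.sum_mul]
        refine Finset.sum_congr rfl fun j _ => ?_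
        rw [smul_mul_assoc, mul_comm (X k)]
      · rw [Finset.sum_eq_single k]
        · rw [Pi.single_eq_same, mul_one, smul_eq_C_mul]
        · intro j _ hj
          rw [Pi.single_eq_of_ne (Ne.symm hj), mul_zero, smul_zero]
        · intro h
          exact absurd (mem_univ k) h
    rw [h1, map_mul, Polynomial.derivative_mul, hf, map_add, map_mul, map_mul]
    have h2 : ln x u (X k) = Polynomial.C (x k) + Polynomial.C (u k) * Polynomial.X := by
      simp [ln]
    have h3 : ln x u (C (u k)) = Polynomial.C (u k) := by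
      simp [ln]
    rw [h2, h3]
    simp only [map_add, Polynomial.derivative_C, Polynomial.derivative_mul,
      Polynomial.derivative_X]
    ring

lemma ln_natDegree (x u : σ → ZMod p) (g : MvPolynomial σ (ZMod p)) :
    (ln x u g).natDegree ≤ g.totalDegree := by
  rw [ln, aeval_def, eval₂_eq]
  apply Polynomial.natDegree_sum_le_of_forall_le
  intro m hm
  refine (Polynomial.natDegree_mul_le).trans ?_
  have h1 : (algebraMap (ZMod p) (Polynomial (ZMod p)) (coeff m g)).natDegree = 0 :=
    Polynomial.natDegree_C _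
  rw [h1, zero_add]
  refine (Polynomial.natDegree_prod_le _ _).trans ?_
  refine le_trans ?_ (le_totalDegree hm)
  apply Finset.sum_le_sum
  intro i _
  refine (Polynomial.natDegree_pow_le).trans ?_
  have h2 : (Polynomial.C (x i) + Polynomial.C (u i) * Polynomial.X).natDegree ≤ 1 := by
    apply (Polynomial.natDegree_add_le _ _).trans
    rw [Polynomial.natDegree_C]
    apply max_le (Nat.zero_le _)
    exact (Polynomial.natDegree_C_mul_le _ _).trans Polynomial.natDegree_X_le
  calc m i * _ ≤ m i * 1 := Nat.mul_le_mul_left _ h2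
    _ = m i := mul_one _

/-- contact of order `d` is enough -/
lemma line_of_contact {V : Submodule (ZMod p) (MvPolynomial σ (ZMod p))} {x u : σ → ZMod p} {d : ℕ}
    (hdp : d < p) (hV : ∀ g ∈ V, g.totalDegree ≤ d) (h : EE V x (List.replicate d u)) :
    ∀ g ∈ V, ∀ t : ZMod p, eval (x + t • u) g = 0 := by
  intro g hg t
  rw [← ln_eval]
  suffices h0 : ln x u g = 0 by rw [h0, Polynomial.eval_zero]
  have h1 : ∀ k, (Polynomial.derivative^[k] (ln x u g)) = ln x u ((dd u)^[k] g) := by
    intro k
    induction k with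
    | zero => rfl
    | succ k ih => rw [Function.iterate_succ_apply', ih, ln_derivative,
        Function.iterate_succ_apply']
  have h2 : ∀ k, (dd u)^[k] g ∈ VV V (List.replicate k u) := by
    intro k
    induction k with
    | zero => exact hg
    | succ k ih =>
      rw [Function.iterate_succ_apply', List.replicate_succ]
      exact dd_mem V ih
  ext k
  rw [Polynomial.coeff_zero]
  by_cases hk : k ≤ d
  · have h3 : (Polynomial.derivative^[k] (ln x u g)).eval 0 = 0 := by
      rw [h1, ln_eval, zero_smul, add_zero]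
      apply h
      apply VV_sublist V (List.replicate_sublist_replicate u |>.2 hk)
      exact h2 k
    rw [← Polynomial.coeff_zero_eq_eval_zero, Polynomial.coeff_iterate_derivative, zero_add,
      Nat.descFactorial_self, nsmul_eq_mul] at h3
    rcases mul_eq_zero.1 h3 with h4 | h4
    · exfalso
      rw [ZMod.natCast_eq_zero_iff, hp.out.dvd_factorial] at h4
      omega
    · exact h4
  · apply Polynomial.coeff_eq_zero_of_natDegree_lt
    have := (ln_natDegree x u g).trans (hV g hg)
    omega

/-- the bounds for the ranks -/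
def hs (b q : ℕ) : ℕ → ℕ
  | 0 => 0
  | m + 1 => 2 ^ m * (b * (q + m * hs b q m + 2 * m + 4))

/-- the constants in these bounds -/
def KK (b : ℕ) : ℕ → ℕ
  | 0 => 0
  | m + 1 => 2 ^ m * (b * (1 + m * KK b m + 2 * m + 4))

lemma hs_le (b q m : ℕ) : hs b q m ≤ KK b m * (q + 1) := by
  induction m with
  | zero => simp [hs]
  | succ m ih =>
    rw [hs, KK, mul_assoc, mul_assoc]
    apply Nat.mul_le_mul_left
    apply Nat.mul_le_mul_left
    have h1 : m * hs b q m ≤ m * (KK b m * (q + 1)) := Nat.mul_le_mul_left _ ih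
    nlinarith

lemma hs_mono (b q : ℕ) (hb : 1 ≤ b) : Monotone (hs b q) := by
  apply monotone_nat_of_le_succ
  intro m
  rw [hs]
  rcases Nat.eq_zero_or_pos m with hm | hm
  · subst hm
    simp [hs]
  · have h1 : 1 ≤ 2 ^ m := Nat.one_le_two_pow
    calc hs b q m = 1 * (1 * (1 * hs b q m)) := by ring
      _ ≤ 2 ^ m * (b * (m * hs b q m)) :=
        Nat.mul_le_mul h1 (Nat.mul_le_mul hb (Nat.mul_le_mul_right _ hm))
      _ ≤ _ := by
        apply Nat.mul_le_mul_left
        apply Nat.mul_le_mul_left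
        omega

lemma sum_le_of_geom (a : ℕ → ℕ) (N : ℕ) (h : ∀ m, a m * 2 ^ (m + 1) ≤ N) (d : ℕ) :
    (∑ m ∈ range d, a m) * 2 ^ d + N ≤ N * 2 ^ d := by
  induction d with
  | zero => simp
  | succ d ih =>
    rw [Finset.sum_range_succ, pow_succ]
    have h1 := h d
    rw [pow_succ] at h1
    nlinarith

theorem exists_good_point (hp3 : 3 ≤ p) {D b q d : ℕ}
    (hb : ∀ r : ℕ, Np p (Fin (b * r)) (b * r * D / 2) * p ^ r ≤ p ^ (b * r))
    (A : Finset (σ → ZMod p)) (V : Submodule (ZMod p) (MvPolynomial σ (ZMod p)))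
    (hV : ∀ g ∈ V, g.totalDegree ≤ D + 1) (hA : p ^ Fintype.card σ < A.card * p ^ q) :
    ∃ x ∈ A, ∀ m < d, ∀ l : List (σ → ZMod p), l.length = m → EE V x l →
      finrank (ZMod p) (NN V x l) ≤ hs b q (m + 1) := by
  classical
  set Good : (σ → ZMod p) → ℕ → Prop := fun x m => ∀ l : List (σ → ZMod p), l.length = m →
    EE V x l → finrank (ZMod p) (NN V x l) ≤ hs b q (m + 1) with hGood
  set Xm : ℕ → Finset (σ → ZMod p) := fun m => A.filter fun x =>
    (∀ m' < m, Good x m') ∧ ¬ Good x m with hXm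
  have hcount : ∀ m, (Xm m).card * p ^ q * 2 ^ (m + 1) ≤ p ^ Fintype.card σ := by
    intro m
    set r := q + m * hs b q m + 2 * m + 4 with hr
    have h1 : ∀ x ∈ Xm m, (p ^ Fintype.card σ) ^ m ≤
        (2 * p ^ hs b q m) ^ m * (Bad V x m (b * r)).card := by
      intro x hx
      obtain ⟨-, hx1, hx2⟩ := mem_filter.1 hx
      apply bad_large
      · intro l hl hE
        have := hx1 l.length (by omega) l rfl hE
        rwa [hl] at this
      · rw [hGood] at hx2
        push Not at hx2
        obtain ⟨l, a1, a2, a3⟩ := hx2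
        refine ⟨l, a1, a2, ?_⟩
        rw [hs] at a3
        exact a3
    have h2 := sum_bad (V := V) (D := D) (b := b) hp3 hb (Xm m) hV m r
    have h3 : (Xm m).card * (p ^ Fintype.card σ) ^ m * p ^ r ≤
        (2 * p ^ hs b q m) ^ m * (8 * p ^ Fintype.card σ * (p ^ Fintype.card σ) ^ m) := by
      calc (Xm m).card * (p ^ Fintype.card σ) ^ m * p ^ r
          = (∑ _x ∈ Xm m, (p ^ Fintype.card σ) ^ m) * p ^ r := by
            rw [Finset.sum_const, smul_eq_mul]
        _ ≤ (∑ x ∈ Xm m, (2 * p ^ hs b q m) ^ m * (Bad V x m (b * r)).card) * p ^ r :=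
            Nat.mul_le_mul_right _ (Finset.sum_le_sum h1)
        _ = (2 * p ^ hs b q m) ^ m * ((∑ x ∈ Xm m, (Bad V x m (b * r)).card) * p ^ r) := by
            rw [← Finset.mul_sum]
            ring
        _ ≤ _ := Nat.mul_le_mul_left _ h2
    have hpos : 0 < p := hp.out.pos
    have h4 : (Xm m).card * p ^ r ≤ 2 ^ m * p ^ (m * hs b q m) * (8 * p ^ Fintype.card σ) := by
      have h5 : (Xm m).card * p ^ r * (p ^ Fintype.card σ) ^ m ≤
          2 ^ m * p ^ (m * hs b q m) * (8 * p ^ Fintype.card σ) * (p ^ Fintype.card σ) ^ m := by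
        calc (Xm m).card * p ^ r * (p ^ Fintype.card σ) ^ m
            = (Xm m).card * (p ^ Fintype.card σ) ^ m * p ^ r := by ring
          _ ≤ _ := h3
          _ = _ := by
            rw [mul_pow, ← pow_mul, mul_comm (hs b q m) m]
            ring
      exact Nat.le_of_mul_le_mul_right h5 (pow_pos (pow_pos hpos _) _)
    have h6 : (Xm m).card * p ^ (q + 2 * m + 4) ≤ 2 ^ m * (8 * p ^ Fintype.card σ) := by
      have h7 : (Xm m).card * p ^ (q + 2 * m + 4) * p ^ (m * hs b q m) ≤
          2 ^ m * (8 * p ^ Fintype.card σ) * p ^ (m * hs b q m) := by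
        calc (Xm m).card * p ^ (q + 2 * m + 4) * p ^ (m * hs b q m)
            = (Xm m).card * p ^ r := by
              rw [hr, mul_assoc, ← pow_add]
              congr 2
              omega
          _ ≤ _ := h4
          _ = _ := by ring
      exact Nat.le_of_mul_le_mul_right h7 (pow_pos hpos _)
    have h8 : 16 * (2 ^ m * 2 ^ m) ≤ p ^ (2 * m + 4) := by
      calc 16 * (2 ^ m * 2 ^ m) = 2 ^ (2 * m + 4) := by ring
        _ ≤ p ^ (2 * m + 4) := Nat.pow_le_pow_left (by omega) _
    have h9 : (2 ^ m * 8) * ((Xm m).card * p ^ q * 2 ^ (m + 1)) ≤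
        (2 ^ m * 8) * p ^ Fintype.card σ := by
      calc (2 ^ m * 8) * ((Xm m).card * p ^ q * 2 ^ (m + 1))
          = (Xm m).card * p ^ q * (16 * (2 ^ m * 2 ^ m)) := by
            rw [pow_succ]
            ring
        _ ≤ (Xm m).card * p ^ q * p ^ (2 * m + 4) := Nat.mul_le_mul_left _ h8
        _ = (Xm m).card * p ^ (q + 2 * m + 4) := by
            rw [mul_assoc, ← pow_add, add_assoc]
        _ ≤ 2 ^ m * (8 * p ^ Fintype.card σ) := h6
        _ = _ := by ring
    exact Nat.le_of_mul_le_mul_left h9 (by positivity)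
  by_contra hcon
  push Not at hcon
  have hcov : A ⊆ (range d).biUnion Xm := by
    intro x hx
    obtain ⟨m, hm, l, hl, hE, hlt⟩ := hcon x hx
    have hex : ∃ m, ¬ Good x m := ⟨m, fun hg => absurd (hg l hl hE) (not_le.2 hlt)⟩
    have hfm : Nat.find hex ≤ m := Nat.find_min' hex fun hg => absurd (hg l hl hE) (not_le.2 hlt)
    rw [mem_biUnion]
    refine ⟨Nat.find hex, mem_range.2 (by omega), mem_filter.2 ⟨hx, fun m' hm' => ?_,
      Nat.find_spec hex⟩⟩
    have := Nat.find_min hex hm'
    exact not_not.1 this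
  have h1 : A.card * p ^ q ≤ ∑ m ∈ range d, (Xm m).card * p ^ q := by
    rw [← Finset.sum_mul]
    exact Nat.mul_le_mul_right _ ((Finset.card_le_card hcov).trans Finset.card_biUnion_le)
  have h2 := sum_le_of_geom (fun m => (Xm m).card * p ^ q) (p ^ Fintype.card σ) hcount d
  have h3 : 0 < 2 ^ d := by positivity
  have h4 : (∑ m ∈ range d, (Xm m).card * p ^ q) * 2 ^ d ≤ p ^ Fintype.card σ * 2 ^ d := by
    omega
  have h5 := Nat.le_of_mul_le_mul_right h4 h3
  omega

/-- **Dense sets.** If `|A| > p ^ (n - q)` and `n ≥ C (q + 1)` then some line through a point of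
`A` is contained in the closure of `A` of degree `d`. -/
theorem core (hp3 : 3 ≤ p) {d : ℕ} (hd : 1 ≤ d) (hdp : d < p) : ∃ C : ℕ, ∀ (σ : Type) [Fintype σ]
    [DecidableEq σ] (A : Finset (σ → ZMod p)) (q : ℕ), p ^ Fintype.card σ < A.card * p ^ q →
    C * (q + 1) ≤ Fintype.card σ →
    ∃ x ∈ A, ∃ u : σ → ZMod p, u ≠ 0 ∧ ∀ g : MvPolynomial σ (ZMod p), g.totalDegree ≤ d →
      (∀ a ∈ A, eval a g = 0) → ∀ t : ZMod p, eval (x + t • u) g = 0 := by
  obtain ⟨b, hb1, hb⟩ := exists_b p (d - 1) (by omega)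
  refine ⟨cc p d * KK b d + 1, ?_⟩
  intro σ _ _ A q hA hC
  let V : Submodule (ZMod p) (MvPolynomial σ (ZMod p)) :=
    { carrier := {g | g.totalDegree ≤ d ∧ ∀ a ∈ A, eval a g = 0}
      add_mem' := by
        rintro f g ⟨h1, h2⟩ ⟨h3, h4⟩
        refine ⟨(totalDegree_add _ _).trans (max_le h1 h3), fun a ha => ?_⟩
        rw [map_add, h2 a ha, h4 a ha, add_zero]
      zero_mem' := by
        refine ⟨?_, fun a _ => by simp⟩
        rw [totalDegree_zero]
        exact Nat.zero_le _
      smul_mem' := by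
        rintro c g ⟨h1, h2⟩
        refine ⟨(totalDegree_smul_le _ _).trans h1, fun a ha => ?_⟩
        rw [smul_eval, h2 a ha, mul_zero] }
  have hVm : ∀ g, g ∈ V ↔ g.totalDegree ≤ d ∧ ∀ a ∈ A, eval a g = 0 := fun g => Iff.rfl
  have hV : ∀ g ∈ V, g.totalDegree ≤ d - 1 + 1 := fun g hg => by
    have := ((hVm g).1 hg).1
    omega
  obtain ⟨x, hx, hgood⟩ := exists_good_point (D := d - 1) (b := b) (q := q) (d := d) hp3 hb A V
    hV hA
  have hR : ∀ l : List (σ → ZMod p), l.length < d → EE V x l →
      finrank (ZMod p) (NN V x l) ≤ hs b q d := by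
    intro l hl hE
    exact (hgood l.length hl l rfl hE).trans (hs_mono b q hb1 (by omega))
  obtain ⟨P, hP, hP0, hPE⟩ := exists_poly hR d [] (by simp)
    (fun g hg => ((hVm g).1 hg).2 x hx)
  have hdeg : cc p d * hs b q d < Fintype.card σ * (p - 1) := by
    have h1 := hs_le b q d
    have h2 : cc p d * hs b q d ≤ cc p d * KK b d * (q + 1) := by
      rw [mul_assoc]
      exact Nat.mul_le_mul_left _ h1
    have h3 : Fintype.card σ * 1 ≤ Fintype.card σ * (p - 1) :=
      Nat.mul_le_mul_left _ (by omega)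
    have h4 : (cc p d * KK b d + 1) * (q + 1) = cc p d * KK b d * (q + 1) + (q + 1) := by ring
    omega
  obtain ⟨u, hu, hPu⟩ := exists_ne_zero hdeg hP hP0
  have hE := hPE u hPu
  rw [List.append_nil] at hE
  refine ⟨x, hx, u, hu, fun g hg1 hg2 t => ?_⟩
  exact line_of_contact hdp (fun g hg => ((hVm g).1 hg).1) hE g ((hVm g).2 ⟨hg1, hg2⟩) t

end Pool.Agent.T6.H37.AP
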