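import Pool.Agent.T6.H37.AP.Poly

/-!
# Counting lemmas
-/

set_option autoImplicit false
set_option linter.unusedSectionVars false

namespace Pool.Agent.T6.H37.AP

open Finset Module

variable {p : ℕ} [hp : Fact p.Prime]

open Classical in
/-- averaging -/
lemma average {X Y : Type} [Fintype X] [Nonempty X] (S : Finset Y) (good : X → Y → Prop)
    (h : ∀ y ∈ S, Fintype.card X ≤ 2 * (univ.filter fun x => good x y).card) :
    ∃ x, S.card ≤ 2 * (S.filter fun y => good x y).card := by
  by_contra hcon
  push Not at hcon
  have h1 : ∑ x : X, (2 * (S.filter fun y => good x y).card) < ∑ _x : X, S.card :=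
    Finset.sum_lt_sum_of_nonempty univ_nonempty fun x _ => hcon x
  have h2 : ∑ x : X, (S.filter fun y => good x y).card =
      ∑ y ∈ S, (univ.filter fun x => good x y).card := by
    simp only [Finset.card_filter]
    exact Finset.sum_comm
  have h3 : ∑ _y ∈ S, Fintype.card X ≤ ∑ y ∈ S, 2 * (univ.filter fun x => good x y).card :=
    Finset.sum_le_sum h
  rw [← Finset.mul_sum, h2, Finset.mul_sum, Finset.sum_const, smul_eq_mul, Finset.card_univ] at h1
  rw [Finset.sum_const, smul_eq_mul, mul_comm] at h3
  omega

open Classical in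
/-- the number of the `x` for which the form `Z x` has a nontrivial zero -/
lemma count_bad {X : Type} [Fintype X] {c : ℕ} (hp3 : 3 ≤ p) (Z : X → (Fin c → ZMod p) → Prop)
    (hZ : ∀ x a (s : ZMod p), Z x a → Z x (s • a))
    (hc : ∀ a, a ≠ 0 → p ^ c * (univ.filter fun x => Z x a).card ≤ Fintype.card X) :
    2 * (univ.filter fun x => ∃ a, a ≠ 0 ∧ Z x a).card ≤ Fintype.card X := by
  have h1 : ∑ x : X, (univ.filter fun a : Fin c → ZMod p => a ≠ 0 ∧ Z x a).card =
      ∑ a : Fin c → ZMod p, (univ.filter fun x => a ≠ 0 ∧ Z x a).card := by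
    simp only [Finset.card_filter]
    exact Finset.sum_comm
  have h2 : (univ.filter fun x => ∃ a, a ≠ 0 ∧ Z x a).card * 2 ≤
      ∑ x : X, (univ.filter fun a : Fin c → ZMod p => a ≠ 0 ∧ Z x a).card := by
    rw [← smul_eq_mul, ← Finset.sum_const]
    refine (Finset.sum_le_sum (f := fun _ => 2)
      (g := fun x => (univ.filter fun a : Fin c → ZMod p => a ≠ 0 ∧ Z x a).card) ?_).trans
      (Finset.sum_le_sum_of_subset (Finset.filter_subset _ _))
    intro x hx
    obtain ⟨a, ha, hxa⟩ := (mem_filter.1 hx).2
    have h3 : ((univ : Finset (ZMod p)).erase 0).card = p - 1 := by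
      rw [Finset.card_erase_of_mem (mem_univ _), Finset.card_univ, ZMod.card]
    have h4 : ((univ : Finset (ZMod p)).erase 0).image (fun s => s • a) ⊆
        univ.filter fun a : Fin c → ZMod p => a ≠ 0 ∧ Z x a := by
      intro b hb
      obtain ⟨s, hs, rfl⟩ := mem_image.1 hb
      refine mem_filter.2 ⟨mem_univ _, smul_ne_zero (ne_of_mem_erase hs) ha, hZ x a s hxa⟩
    have h5 := Finset.card_le_card h4
    rw [Finset.card_image_of_injective _ (fun s s' (h : s • a = s' • a) => by
      obtain ⟨j, hj⟩ : ∃ j, a j ≠ 0 := by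
        by_contra hcon
        push Not at hcon
        exact ha (funext hcon)
      have := congrFun h j
      simp only [Pi.smul_apply, smul_eq_mul] at this
      exact mul_right_cancel₀ hj this), h3] at h5
    omega
  have h3 : p ^ c * ∑ a : Fin c → ZMod p, (univ.filter fun x => a ≠ 0 ∧ Z x a).card ≤
      p ^ c * Fintype.card X := by
    rw [Finset.mul_sum]
    calc ∑ a : Fin c → ZMod p, p ^ c * (univ.filter fun x => a ≠ 0 ∧ Z x a).card
        ≤ ∑ _a : Fin c → ZMod p, Fintype.card X := by
          apply Finset.sum_le_sum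
          intro a _
          by_cases ha : a = 0
          · simp [ha]
          · simpa [ha] using hc a ha
      _ = p ^ c * Fintype.card X := by
          rw [Finset.sum_const, Finset.card_univ, Fintype.card_fun, ZMod.card, Fintype.card_fin,
            smul_eq_mul]
  have h4 := Nat.le_of_mul_le_mul_left h3 (pow_pos hp.out.pos c)
  omega

open Classical in
/-- the size of the kernel of a surjective map -/
lemma card_ker {X Y : Type} [AddCommGroup X] [Module (ZMod p) X] [Fintype X] [AddCommGroup Y]
    [Module (ZMod p) Y] [Fintype Y] (Λ : X →ₗ[ZMod p] Y) (h : Function.Surjective Λ) :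
    Fintype.card Y * (univ.filter fun x => Λ x = 0).card ≤ Fintype.card X := by
  obtain ⟨s, hs⟩ := LinearMap.exists_rightInverse_of_surjective Λ (LinearMap.range_eq_top.2 h)
  have hs' : ∀ y, Λ (s y) = y := fun y => LinearMap.congr_fun hs y
  rw [← Finset.card_univ, ← Finset.card_product]
  refine (Finset.card_le_card_of_injOn (fun q : Y × X => s q.1 + q.2) (fun _ _ => mem_univ _)
    ?_)
  intro q hq q' hq' he
  simp only [coe_product, coe_univ, coe_filter, Set.mem_prod, Set.mem_univ, true_and] at hq hq'
  have h1 : Λ q.2 = 0 := by simpa using hq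
  have h2 : Λ q'.2 = 0 := by simpa using hq'
  have h3 := congrArg Λ he
  simp only [map_add, hs', h1, h2, add_zero] at h3
  simp only [h3] at he
  exact Prod.ext h3 (add_left_cancel he)

end Pool.Agent.T6.H37.AP
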