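import Pool.Agent.T6.H37.AP.VV

/-!
# From multilinear to diagonal directions

If the gradients of the iterated derivatives span spaces of dimension at most `R` for all lists of
admissible directions, then the directions of contact of order `j` contain the support of a
polynomial of degree at most `cc p j * R` which does not vanish at `0`.
-/

set_option autoImplicit false
set_option linter.unusedSectionVars false

namespace Pool.Agent.T6.H37.AP

open Finset Module MvPolynomial

variable {p : ℕ} [hp : Fact p.Prime] {σ : Type} [Fintype σ] [DecidableEq σ]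

/-- move the chosen entries of a list by `u` -/
def shift (s : List Bool) (v : List (σ → ZMod p)) (u : σ → ZMod p) : List (σ → ZMod p) :=
  List.zipWith (fun b w => if b then w + u else w) s v

lemma shift_cons (c : Bool) (s : List Bool) (b : σ → ZMod p) (v : List (σ → ZMod p))
    (u : σ → ZMod p) : shift (c :: s) (b :: v) u = (if c then b + u else b) :: shift s v u := rfl

lemma shift_length (s : List Bool) (v : List (σ → ZMod p)) (u : σ → ZMod p)
    (h : s.length = v.length) : (shift s v u).length = v.length := by
  simp [shift, h]

variable {V : Submodule (ZMod p) (MvPolynomial σ (ZMod p))} {x u : σ → ZMod p}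

lemma slotsA (v : List (σ → ZMod p)) : ∀ l : List (σ → ZMod p),
    (∀ v' : List (σ → ZMod p), v'.Sublist v →
      EE V x (List.replicate (v.length - v'.length) u ++ (v' ++ l))) →
    ∀ s : List Bool, s.length = v.length → EE V x (shift s v u ++ l) := by
  induction v with
  | nil =>
    intro l H s hs
    have h := H [] (List.Sublist.refl _)
    have hs' : s = [] := List.eq_nil_of_length_eq_zero hs
    subst hs'
    simpa [shift] using h
  | cons b v ih =>
    intro l H s hs
    cases s with
    | nil => simp at hs
    | cons c s =>
      have hs' : s.length = v.length := by simpa using hs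
      have e1 : EE V x (b :: (shift s v u ++ l)) := by
        refine EE_perm List.perm_middle (ih (b :: l) (fun v' hv' => ?_) s hs')
        have h1 := H (b :: v') (List.Sublist.cons_cons b hv')
        simp only [List.length_cons, Nat.add_sub_add_right, List.cons_append] at h1
        exact EE_perm (List.Perm.append_left _ List.perm_middle.symm) h1
      have e2 : EE V x (u :: (shift s v u ++ l)) := by
        refine EE_perm List.perm_middle (ih (u :: l) (fun v' hv' => ?_) s hs')
        have h1 := H v' (List.Sublist.cons b hv')
        have h2 := hv'.length_le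
        rw [List.length_cons, Nat.succ_sub h2, List.replicate_succ, List.cons_append] at h1
        refine EE_perm ?_ h1
        rw [← List.append_assoc, ← List.append_assoc]
        exact List.perm_middle.symm
      rw [shift_cons, List.cons_append]
      cases c with
      | false => simpa using e1
      | true => simpa using EE_add e1 e2

lemma slotsB (v : List (σ → ZMod p)) : ∀ l : List (σ → ZMod p),
    (∀ s : List Bool, s.length = v.length → EE V x (shift s v u ++ l)) →
    EE V x (List.replicate v.length u ++ l) := by
  induction v with
  | nil =>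
    intro l H
    simpa [shift] using H [] rfl
  | cons b v ih =>
    intro l H
    have h1 : EE V x (List.replicate v.length u ++ (u :: l)) := by
      apply ih
      intro s hs
      have e1 := H (false :: s) (by simp [hs])
      have e2 := H (true :: s) (by simp [hs])
      rw [shift_cons, List.cons_append] at e1 e2
      simp only [if_true, Bool.false_eq_true, if_false] at e1 e2
      have e3 := EE_sub e2 e1
      rw [add_sub_cancel_left] at e3
      exact EE_perm List.perm_middle.symm e3
    rw [List.length_cons, List.replicate_succ, List.cons_append]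
    exact EE_perm List.perm_middle h1

lemma family (v : List (σ → ZMod p)) : ∀ (l : List (σ → ZMod p)) (h : MvPolynomial σ (ZMod p)),
    h ∈ VV V (v ++ l) → ∀ s : List Bool, s.length = v.length →
    ∃ H : (σ → ZMod p) → MvPolynomial σ (ZMod p), (∀ u, H u ∈ VV V (shift s v u ++ l)) ∧
      H 0 = h ∧ ∀ ev : MvPolynomial σ (ZMod p) →ₗ[ZMod p] ZMod p,
        (fun u => ev (H u)) ∈ PF p σ v.length := by
  induction v with
  | nil =>
    intro l h hh s hs
    have hs' : s = [] := List.eq_nil_of_length_eq_zero hs
    subst hs'
    exact ⟨fun _ => h, fun _ => hh, rfl, fun ev => const_mem 0 (ev h)⟩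
  | cons w v ih =>
    intro l h hh s hs
    cases s with
    | nil => simp at hs
    | cons c s =>
      have hs' : s.length = v.length := by simpa using hs
      rw [List.cons_append] at hh
      obtain ⟨h0, hh0, h1, ⟨h2, hh2, rfl⟩, rfl⟩ := Submodule.mem_sup.1 hh
      obtain ⟨H0, a1, a2, a3⟩ := ih l h0 hh0 s hs'
      obtain ⟨H2, b1, b2, b3⟩ := ih l h2 hh2 s hs'
      refine ⟨fun u => H0 u + dd (if c then w + u else w) (H2 u), fun u => ?_, ?_, fun ev => ?_⟩
      · rw [shift_cons, List.cons_append]
        exact Submodule.add_mem _ (VV_le_cons V _ _ (a1 u)) (dd_mem V (b1 u))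
      · have e : (if c then w + 0 else w) = w := by
          cases c <;> simp
        simp only [e, a2, b2]
      · simp only [map_add]
        apply add_mem (PF_le (by simp) (a3 ev))
        have e : ∀ u, ev (dd (if c then w + u else w) (H2 u)) =
            ∑ j, (if c then w + u else w) j * (ev.comp
              ((pderiv j : Derivation (ZMod p) (MvPolynomial σ (ZMod p)) _) :
                MvPolynomial σ (ZMod p) →ₗ[ZMod p] MvPolynomial σ (ZMod p))) (H2 u) := by
          intro u
          rw [dd_apply, map_sum]
          apply Finset.sum_congr rfl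
          intro j _
          rw [map_smul, smul_eq_mul]
          rfl
        simp only [e]
        apply sum_mem
        intro j _
        rw [List.length_cons]
        refine mul_mem' (D := 1) ?_ (b3 _) (by omega)
        cases c with
        | false =>
          simp only [Bool.false_eq_true, if_false]
          exact const_mem 1 _
        | true =>
          simp only [if_true, Pi.add_apply]
          exact add_mem (const_mem 1 _) (coord_mem j)

/-- the constants -/
def cc (p : ℕ) : ℕ → ℕ
  | 0 => 0
  | j + 1 => 2 ^ j * (cc p j + j + (j + 1) * (p - 1))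

lemma cc_mono (p : ℕ) : Monotone (cc p) := by
  apply monotone_nat_of_le_succ
  intro j
  rw [cc]
  have h1 : 1 ≤ 2 ^ j := Nat.one_le_two_pow
  calc cc p j ≤ cc p j + j + (j + 1) * (p - 1) := by omega
    _ = 1 * (cc p j + j + (j + 1) * (p - 1)) := by ring
    _ ≤ _ := Nat.mul_le_mul_right _ h1

lemma exists_max (l : List (σ → ZMod p)) (j R : ℕ) (hl : EE V x l)
    (hR : ∀ v : List (σ → ZMod p), v.length = j → EE V x (v ++ l) →
      finrank (ZMod p) (NN V x (v ++ l)) ≤ R) :
    ∃ v : List (σ → ZMod p), v.length = j ∧ EE V x (v ++ l) ∧
      ∀ v' : List (σ → ZMod p), v'.length = j → EE V x (v' ++ l) →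
        finrank (ZMod p) (NN V x (v' ++ l)) ≤ finrank (ZMod p) (NN V x (v ++ l)) := by
  let s : Set ℕ := {n | ∃ v : List (σ → ZMod p), v.length = j ∧ EE V x (v ++ l) ∧
    finrank (ZMod p) (NN V x (v ++ l)) = n}
  have hne : s.Nonempty := by
    refine ⟨_, List.replicate j 0, by simp, ?_, rfl⟩
    clear hR
    induction j with
    | zero => simpa using hl
    | succ j ih =>
      rw [List.replicate_succ, List.cons_append]
      exact EE_zero ih
  have hb : BddAbove s := by
    refine ⟨R, ?_⟩
    rintro n ⟨v, h1, h2, rfl⟩
    exact hR v h1 h2
  obtain ⟨v, h1, h2, h3⟩ := Nat.sSup_mem hne hb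
  refine ⟨v, h1, h2, fun v' h1' h2' => ?_⟩
  rw [h3]
  exact le_csSup hb ⟨v', h1', h2', rfl⟩

theorem exists_poly {d R : ℕ}
    (hR : ∀ l : List (σ → ZMod p), l.length < d → EE V x l → finrank (ZMod p) (NN V x l) ≤ R)
    (j : ℕ) : ∀ l : List (σ → ZMod p), l.length + j ≤ d → EE V x l →
      ∃ P ∈ PF p σ (cc p j * R), P 0 ≠ 0 ∧
        ∀ u, P u ≠ 0 → EE V x (List.replicate j u ++ l) := by
  classical
  induction j using Nat.strong_induction_on with
  | _ j ih =>
    intro l hlj hl
    rcases j with _ | j
    · exact ⟨1, one_mem _, by simp, fun u _ => by simpa using hl⟩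
    -- the extremal list
    obtain ⟨v, hvj, hv, hmax⟩ := exists_max l j R hl (fun v h1 h2 => hR _ (by
      rw [List.length_append]; omega) h2)
    set r := finrank (ZMod p) (NN V x (v ++ l)) with hr
    have hrR : r ≤ R := hR _ (by rw [List.length_append]; omega) hv
    -- the first factor
    have hP1 : ∀ v' : List (σ → ZMod p), ∃ P : (σ → ZMod p) → ZMod p, v'.Sublist v →
        P ∈ PF p σ (cc p j * R) ∧ P 0 ≠ 0 ∧
          ∀ u, P u ≠ 0 → EE V x (List.replicate (v.length - v'.length) u ++ (v' ++ l)) := by
      intro v'
      by_cases hv' : v'.Sublist v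
      · have h1 := hv'.length_le
        obtain ⟨P, a1, a2, a3⟩ := ih (j - v'.length) (by omega) (v' ++ l)
          (by rw [List.length_append]; omega) (EE_sublist (hv'.append_right l) hv)
        refine ⟨P, fun _ => ⟨PF_le (Nat.mul_le_mul_right _ (cc_mono p (by omega))) a1, a2, ?_⟩⟩
        rw [hvj]
        exact a3
      · exact ⟨0, fun h => absurd h hv'⟩
    choose PP hPP using hP1
    set T : Finset (List (σ → ZMod p)) := v.sublists.toFinset with hT
    have hTm : ∀ v', v' ∈ T ↔ v'.Sublist v := fun v' => by
      rw [hT, List.mem_toFinset, List.mem_sublists]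
    have hTc : T.card ≤ 2 ^ j := by
      rw [hT]
      refine (List.toFinset_card_le _).trans ?_
      rw [List.length_sublists, hvj]
    -- the basis
    let B := Module.finBasis (ZMod p) (NN V x (v ++ l))
    have hB : ∀ i : Fin r, ∃ h ∈ VV V (v ++ l), gradAt x h = (B i : σ → ZMod p) := fun i => (B i).2
    choose h hh hgrad using hB
    have hind : ∀ a : Fin r → ZMod p, (∀ k, ∑ i, a i * gradAt x (h i) k = 0) → a = 0 := by
      intro a ha
      have h1 := Fintype.linearIndependent_iff.1 B.linearIndependent a (by
        apply Subtype.ext
        funext k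
        rw [Submodule.coe_sum, Finset.sum_apply]
        have h2 := ha k
        simp only [hgrad] at h2
        simpa using h2)
      exact funext h1
    have hE : ∀ k : Fin r, ∃ z : σ → ZMod p, ∀ i, ∑ m, gradAt x (h i) m * z m =
        (Pi.single k 1 : Fin r → ZMod p) i := fun k =>
      surj_of_indep (fun i m => gradAt x (h i) m) hind (Pi.single k 1)
    choose e he using hE
    -- the families
    have hfam : ∀ (s : List.Vector Bool j) (i : Fin r), ∃ H : (σ → ZMod p) →
        MvPolynomial σ (ZMod p), (∀ u, H u ∈ VV V (shift s.1 v u ++ l)) ∧ H 0 = h i ∧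
        ∀ ev : MvPolynomial σ (ZMod p) →ₗ[ZMod p] ZMod p, (fun u => ev (H u)) ∈ PF p σ v.length :=
      fun s i => family v l (h i) (hh i) s.1 (s.2.trans hvj.symm)
    choose H hH1 hH2 hH3 using hfam
    have hH4 : ∀ s i m, (fun u => gradAt x (H s i u) m) ∈ PF p σ j := by
      intro s i m
      rw [← hvj]
      exact hH3 s i ((LinearMap.proj m).comp (gradAt x))
    let Δ : List.Vector Bool j → (σ → ZMod p) → ZMod p := fun s u =>
      (Matrix.of fun i k : Fin r => ∑ m, gradAt x (H s i u) m * e k m).det
    have hΔ : ∀ s, Δ s ∈ PF p σ (R * j) := by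
      intro s
      apply det_mem (D := j) (fun i k u => ∑ m, gradAt x (H s i u) m * e k m)
      · intro i k
        apply sum_mem
        intro m _
        have h1 := smul_mem (e k m) (hH4 s i m)
        simpa only [mul_comm] using h1
      · rw [Fintype.card_fin]
        exact Nat.mul_le_mul_right _ hrR
    let q : List.Vector Bool j → Fin r → (σ → ZMod p) → ZMod p := fun s i u =>
      ∑ m, gradAt x (H s i u) m * u m
    have hq : ∀ s i, (fun u => 1 - q s i u ^ (p - 1)) ∈ PF p σ ((p - 1) * (j + 1)) := by
      intro s i
      apply sub_mem (const_mem _ 1)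
      apply pow_mem
      apply sum_mem
      intro m _
      exact mul_mem' (hH4 s i m) (coord_mem m) le_rfl
    refine ⟨fun u => (∏ v' ∈ T, PP v' u) * ((∏ s, Δ s u) * ∏ s, ∏ i, (1 - q s i u ^ (p - 1))),
      ?_, ?_, ?_⟩
    · -- the degree
      have d1 : (fun u => ∏ v' ∈ T, PP v' u) ∈ PF p σ (2 ^ j * (cc p j * R)) :=
        prod_mem' T PP (fun v' hv' => (hPP v' ((hTm v').1 hv')).1) (Nat.mul_le_mul_right _ hTc)
      have hcv : (univ : Finset (List.Vector Bool j)).card = 2 ^ j := by
        rw [Finset.card_univ, card_vector, Fintype.card_bool]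
      have d2 : (fun u => ∏ s, Δ s u) ∈ PF p σ (2 ^ j * (R * j)) :=
        prod_mem' univ Δ (fun s _ => hΔ s) (by rw [hcv])
      have d3 : ∀ s, (fun u => ∏ i, (1 - q s i u ^ (p - 1))) ∈ PF p σ (R * ((p - 1) * (j + 1))) :=
        fun s => prod_mem' univ (fun i u => 1 - q s i u ^ (p - 1)) (fun i _ => hq s i) (by
          rw [Finset.card_univ, Fintype.card_fin]
          exact Nat.mul_le_mul_right _ hrR)
      have d4 : (fun u => ∏ s, ∏ i, (1 - q s i u ^ (p - 1))) ∈
          PF p σ (2 ^ j * (R * ((p - 1) * (j + 1)))) :=
        prod_mem' univ (fun s u => ∏ i, (1 - q s i u ^ (p - 1))) (fun s _ => d3 s) (by rw [hcv])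
      refine mul_mem' d1 (mul_mem' d2 d4 le_rfl) (le_of_eq ?_)
      rw [cc]
      ring
    · -- the value at zero
      have z1 : ∀ s, Δ s 0 = 1 := by
        intro s
        have : (Matrix.of fun i k : Fin r => ∑ m, gradAt x (H s i 0) m * e k m) = 1 := by
          ext i k
          rw [Matrix.of_apply, hH2, he, Matrix.one_apply, Pi.single_apply]
        change (Matrix.of fun i k : Fin r => ∑ m, gradAt x (H s i 0) m * e k m).det = 1
        rw [this, Matrix.det_one]
      have z2 : ∀ s i, q s i 0 = 0 := by
        intro s i
        simp [q]
      have hp1 : p - 1 ≠ 0 := by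
        have := hp.out.two_le
        omega
      simp only [z1, z2, zero_pow hp1, sub_zero, Finset.prod_const_one, mul_one]
      exact Finset.prod_ne_zero_iff.2 fun v' hv' => (hPP v' ((hTm v').1 hv')).2.1
    · -- the support
      intro u hu
      have hu1 := left_ne_zero_of_mul hu
      have hu2 := left_ne_zero_of_mul (right_ne_zero_of_mul hu)
      have hu3 := right_ne_zero_of_mul (right_ne_zero_of_mul hu)
      have hA := slotsA (V := V) (x := x) (u := u) v l (fun v' hv' =>
        (hPP v' hv').2.2 u (Finset.prod_ne_zero_iff.1 hu1 v' ((hTm v').2 hv')))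
      have hB' : ∀ s : List Bool, s.length = v.length → EE V x (u :: (shift s v u ++ l)) := by
        intro s hs
        rw [EE_cons]
        refine ⟨hA s hs, ?_⟩
        let s' : List.Vector Bool j := ⟨s, hs.trans hvj⟩
        have hdet : Δ s' u ≠ 0 := Finset.prod_ne_zero_iff.1 hu2 s' (mem_univ _)
        have hq0 : ∀ i, q s' i u = 0 := by
          intro i
          by_contra hne
          have h1 := Finset.prod_ne_zero_iff.1 (Finset.prod_ne_zero_iff.1 hu3 s' (mem_univ _)) i
            (mem_univ _)
          rw [ZMod.pow_card_sub_one_eq_one hne, sub_self] at h1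
          exact h1 rfl
        have hlin : LinearIndependent (ZMod p) (fun i : Fin r => gradAt x (H s' i u)) := by
          rw [Fintype.linearIndependent_iff]
          intro a ha
          have h1 : Matrix.vecMul a
              (Matrix.of fun i k : Fin r => ∑ m, gradAt x (H s' i u) m * e k m) = 0 := by
            funext k
            simp only [Matrix.vecMul, dotProduct, Matrix.of_apply, Pi.zero_apply, Finset.mul_sum]
            rw [Finset.sum_comm]
            apply Finset.sum_eq_zero
            intro m _
            have h2 := congrFun ha m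
            rw [Finset.sum_apply] at h2
            simp only [Pi.smul_apply, smul_eq_mul, Pi.zero_apply] at h2
            have h3 : ∑ i, a i * (gradAt x (H s' i u) m * e k m) =
                (∑ i, a i * gradAt x (H s' i u) m) * e k m := by
              rw [Finset.sum_mul]
              exact Finset.sum_congr rfl fun i _ => by ring
            rw [h3, h2, zero_mul]
          exact fun i => congrFun (Matrix.eq_zero_of_vecMul_eq_zero hdet h1) i
        have hle : Submodule.span (ZMod p) (Set.range fun i : Fin r => gradAt x (H s' i u)) ≤
            NN V x (shift s v u ++ l) := by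
          rw [Submodule.span_le]
          rintro _ ⟨i, rfl⟩
          exact ⟨H s' i u, hH1 s' i u, rfl⟩
        have hfr : finrank (ZMod p) (NN V x (shift s v u ++ l)) ≤ finrank (ZMod p)
            (Submodule.span (ZMod p) (Set.range fun i : Fin r => gradAt x (H s' i u))) := by
          rw [finrank_span_eq_card hlin, Fintype.card_fin]
          exact hmax _ ((shift_length s v u hs).trans hvj) (hA s hs)
        rw [← Submodule.eq_of_le_of_finrank_le hle hfr]
        intro ν hν
        induction hν using Submodule.span_induction with
        | mem ν hν =>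
          obtain ⟨i, rfl⟩ := hν
          exact hq0 i
        | zero => simp
        | add a b _ _ ha hb =>
          simp only [Pi.add_apply, add_mul, Finset.sum_add_distrib, ha, hb, add_zero]
        | smul c a _ ha =>
          simp only [Pi.smul_apply, smul_eq_mul, mul_assoc, ← Finset.mul_sum, ha, mul_zero]
      have hC := slotsB (V := V) (x := x) (u := u) v (u :: l) (fun s hs =>
        EE_perm List.perm_middle.symm (hB' s hs))
      rw [hvj] at hC
      rw [List.replicate_succ, List.cons_append]
      exact EE_perm List.perm_middle hC

end Pool.Agent.T6.H37.AP
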