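import Pool.Agent.T6.H37.AP.Poly

/-!
# Divided differences of polynomials in several variables
-/

set_option autoImplicit false
set_option linter.unusedSectionVars false

namespace Pool.Agent.T6.H37.AP

open Finset Module MvPolynomial

variable {p : ℕ} [hp : Fact p.Prime] {σ : Type} [Fintype σ] [DecidableEq σ]

lemma eval_mem (g : MvPolynomial σ (ZMod p)) {D : ℕ} (h : g.totalDegree ≤ D) :
    (fun x => eval x g) ∈ PF p σ D := by
  simp only [eval_eq']
  apply sum_mem
  intro m hm
  apply smul_mem
  apply mono_mem
  have h1 := le_totalDegree hm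
  rw [Finsupp.sum_fintype _ _ (fun _ => rfl)] at h1
  omega

/-- divided differences -/
def Q (g : MvPolynomial σ (ZMod p)) (D : ℕ) : Prop :=
  ∃ H : σ → (σ ⊕ σ → ZMod p) → ZMod p, (∀ j, H j ∈ PF p (σ ⊕ σ) D) ∧
    (∀ x x' : σ → ZMod p, eval x' g - eval x g = ∑ j, H j (Sum.elim x x') * (x' j - x j)) ∧
    ∀ (x : σ → ZMod p) (j : σ), H j (Sum.elim x x) = eval x (pderiv j g)

/-- divided differences, with zero for the constants -/
def DD (g : MvPolynomial σ (ZMod p)) (k : ℕ) : Prop :=
  ∃ H : σ → (σ ⊕ σ → ZMod p) → ZMod p, (∀ j, H j ∈ PF p (σ ⊕ σ) (k - 1)) ∧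
    (k = 0 → H = 0) ∧
    (∀ x x' : σ → ZMod p, eval x' g - eval x g = ∑ j, H j (Sum.elim x x') * (x' j - x j)) ∧
    ∀ (x : σ → ZMod p) (j : σ), H j (Sum.elim x x) = eval x (pderiv j g)

lemma DD_zero (k : ℕ) : DD (0 : MvPolynomial σ (ZMod p)) k :=
  ⟨0, fun _ => Submodule.zero_mem _, fun _ => rfl, fun x x' => by simp, fun x j => by simp⟩

lemma DD_C (a : ZMod p) (k : ℕ) : DD (C a : MvPolynomial σ (ZMod p)) k :=
  ⟨0, fun _ => Submodule.zero_mem _, fun _ => rfl, fun x x' => by simp, fun x j => by simp⟩

lemma DD_mul_X {g : MvPolynomial σ (ZMod p)} {k : ℕ} (hk : g.totalDegree ≤ k) (h : DD g k)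
    (i : σ) : DD (g * X i) (k + 1) := by
  obtain ⟨H, h1, h2, h3, h4⟩ := h
  refine ⟨fun j v => H j v * v (Sum.inr i) + if j = i then eval (fun l => v (Sum.inl l)) g else 0,
    ?_, fun h => absurd h (Nat.succ_ne_zero k), ?_, ?_⟩
  · intro j
    rw [Nat.add_sub_cancel]
    apply add_mem
    · rcases Nat.eq_zero_or_pos k with h5 | h5
      · rw [h2 h5]
        simp only [Pi.zero_apply, zero_mul]
        exact Submodule.zero_mem _
      · exact mul_mem' (h1 j) (coord_mem _) (by omega)
    · by_cases hj : j = i
      · simp only [hj, if_true]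
        exact comp_mem (eval_mem g hk) (fun v l => v (Sum.inl l)) (fun l => coord_mem _)
      · simp only [hj, if_false]
        exact Submodule.zero_mem _
  · intro x x'
    simp only [map_mul, eval_X, Sum.elim_inr, Sum.elim_inl, add_mul, ite_mul, zero_mul,
      Finset.sum_add_distrib, Finset.sum_ite_eq', Finset.mem_univ, if_true]
    have e : ∑ j, H j (Sum.elim x x') * x' i * (x' j - x j) =
        (∑ j, H j (Sum.elim x x') * (x' j - x j)) * x' i := by
      rw [Finset.sum_mul]
      exact Finset.sum_congr rfl fun j _ => by ring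
    rw [e, ← h3]
    change _ = _ + eval x g * _
    ring
  · intro x j
    simp only [Sum.elim_inr, Sum.elim_inl, h4, Derivation.leibniz, smul_eq_mul, map_add, map_mul,
      eval_X, pderiv_X]
    by_cases hj : j = i
    · subst hj
      simp only [if_true, Pi.single_eq_same, map_one, mul_one]
      change _ + eval x g = _
      ring
    · rw [if_neg hj, Pi.single_eq_of_ne (Ne.symm hj), map_zero]
      ring

lemma DD_monomial (s : σ →₀ ℕ) (a : ZMod p) :
    DD (monomial s a : MvPolynomial σ (ZMod p)) (monomial s a : MvPolynomial σ (ZMod p)).totalDegree := by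
  refine induction_on_monomial
    (motive := fun g : MvPolynomial σ (ZMod p) => DD g g.totalDegree) ?_ ?_ s a
  · intro a
    exact DD_C a _
  · intro g i hg
    by_cases h : g = 0
    · subst h
      rw [zero_mul]
      exact DD_zero _
    · rw [totalDegree_mul_of_isDomain h (X_ne_zero i), totalDegree_X]
      exact DD_mul_X le_rfl hg i

theorem divided_difference (g : MvPolynomial σ (ZMod p)) {D : ℕ} (h : g.totalDegree ≤ D + 1) :
    Q g D := by
  have h0 : ∀ T ⊆ g.support, Q (∑ s ∈ T, monomial s (g.coeff s)) D := by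
    intro T
    induction T using Finset.induction_on with
    | empty =>
      intro _
      exact ⟨0, fun _ => Submodule.zero_mem _, fun x x' => by simp, fun x j => by simp⟩
    | insert s T hs ih =>
      intro hT
      obtain ⟨H, h1, h2, h3⟩ := ih ((subset_insert _ _).trans hT)
      obtain ⟨H', h1', -, h2', h3'⟩ := DD_monomial (p := p) s (g.coeff s)
      have hs' : s ∈ g.support := hT (mem_insert_self _ _)
      have h5 : (monomial s (g.coeff s) : MvPolynomial σ (ZMod p)).totalDegree ≤ D + 1 := by
        rw [totalDegree_monomial _ (mem_support_iff.1 hs')]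
        exact (le_totalDegree hs').trans h
      refine ⟨fun j v => H' j v + H j v, fun j => add_mem (PF_le (by omega) (h1' j)) (h1 j), ?_, ?_⟩
      · intro x x'
        rw [Finset.sum_insert hs, map_add, map_add]
        simp only [add_mul, Finset.sum_add_distrib]
        rw [← h2, ← h2']
        ring
      · intro x j
        rw [Finset.sum_insert hs, map_add, map_add, ← h3, ← h3']
  have h1 := h0 g.support (Finset.Subset.refl _)
  rwa [support_sum_monomial_coeff] at h1

end Pool.Agent.T6.H37.AP
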