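import Pool.Agent.T6.H37.AP.Core

/-!
# Many lines through most points
-/

set_option autoImplicit false
set_option linter.unusedSectionVars false

namespace Pool.Agent.T6.H37.AP

open Finset Module MvPolynomial

variable {p : ℕ} [hp : Fact p.Prime] {σ : Type} [Fintype σ] [DecidableEq σ]

open Classical in
/-- the size of the support of a function of small degree which does not vanish at `0` -/
lemma supp_count {D m : ℕ} {f : (σ → ZMod p) → ZMod p} (hf : f ∈ PF p σ D) (h0 : f 0 ≠ 0)
    (hD : D + m * (p - 1) < Fintype.card σ * (p - 1)) :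
    p ^ m ≤ (univ.filter fun u => f u ≠ 0).card := by
  by_contra hcon
  push Not at hcon
  have hp1 : p - 1 ≠ 0 := by
    have := hp.out.two_le
    omega
  -- the linear maps vanishing at a given vector
  have h1 : ∀ u : σ → ZMod p, u ≠ 0 →
      p ^ m * (univ.filter fun L : Fin m → σ → ZMod p => ∀ i, ∑ j, L i j * u j = 0).card ≤
        Fintype.card (Fin m → σ → ZMod p) := by
    intro u hu
    let Λ : (Fin m → σ → ZMod p) →ₗ[ZMod p] (Fin m → ZMod p) :=
      { toFun := fun L i => ∑ j, L i j * u j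
        map_add' := fun L L' => by
          funext i
          simp [add_mul, Finset.sum_add_distrib]
        map_smul' := fun a L => by
          funext i
          simp [Finset.mul_sum, mul_assoc] }
    have hs : Function.Surjective Λ := by
      intro b
      obtain ⟨k, hk⟩ : ∃ k, u k ≠ 0 := by
        by_contra hc
        push Not at hc
        exact hu (funext hc)
      refine ⟨fun i j => if j = k then b i * (u k)⁻¹ else 0, ?_⟩
      funext i
      change ∑ j, (if j = k then b i * (u k)⁻¹ else 0) * u j = b i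
      simp only [ite_mul, zero_mul, Finset.sum_ite_eq', Finset.mem_univ, if_true]
      rw [mul_assoc, inv_mul_cancel₀ hk, mul_one]
    have h2 := card_ker Λ hs
    rw [Fintype.card_fun, ZMod.card, Fintype.card_fin] at h2
    refine le_trans (le_of_eq ?_) h2
    congr 2
    ext L
    simp only [mem_filter, mem_univ, true_and]
    exact funext_iff.symm
  set T := (univ.filter fun u : σ → ZMod p => f u ≠ 0).erase 0 with hT
  have hTc : T.card < p ^ m := (Finset.card_le_card (Finset.erase_subset _ _)).trans_lt hcon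
  have h3 : (T.biUnion fun u => univ.filter fun L : Fin m → σ → ZMod p =>
      ∀ i, ∑ j, L i j * u j = 0).card < Fintype.card (Fin m → σ → ZMod p) := by
    by_contra hge
    push Not at hge
    have h4 : p ^ m * Fintype.card (Fin m → σ → ZMod p) ≤
        T.card * Fintype.card (Fin m → σ → ZMod p) := by
      calc p ^ m * Fintype.card (Fin m → σ → ZMod p)
          ≤ p ^ m * ∑ u ∈ T, (univ.filter fun L : Fin m → σ → ZMod p =>
            ∀ i, ∑ j, L i j * u j = 0).card :=
            Nat.mul_le_mul_left _ (hge.trans Finset.card_biUnion_le)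
        _ = ∑ u ∈ T, p ^ m * (univ.filter fun L : Fin m → σ → ZMod p =>
            ∀ i, ∑ j, L i j * u j = 0).card := by rw [Finset.mul_sum]
        _ ≤ ∑ _u ∈ T, Fintype.card (Fin m → σ → ZMod p) :=
            Finset.sum_le_sum fun u hu => h1 u (Finset.ne_of_mem_erase hu)
        _ = _ := by rw [Finset.sum_const, smul_eq_mul]
    have h5 : 0 < Fintype.card (Fin m → σ → ZMod p) := Fintype.card_pos
    exact absurd (Nat.le_of_mul_le_mul_right h4 h5) (not_le.2 hTc)
  obtain ⟨L, hL⟩ : ∃ L : Fin m → σ → ZMod p, L ∉ T.biUnion fun u =>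
      univ.filter fun L : Fin m → σ → ZMod p => ∀ i, ∑ j, L i j * u j = 0 := by
    by_contra hc
    push Not at hc
    have : (univ : Finset (Fin m → σ → ZMod p)) ⊆ T.biUnion fun u =>
      univ.filter fun L : Fin m → σ → ZMod p => ∀ i, ∑ j, L i j * u j = 0 := fun L _ => hc L
    have h6 := Finset.card_le_card this
    rw [Finset.card_univ] at h6
    omega
  have hg : (fun u => f u * ∏ i, (1 - (∑ j, L i j * u j) ^ (p - 1))) ∈
      PF p σ (D + m * (p - 1)) := by
    refine mul_mem' hf (prod_mem' univ (D := p - 1) _ (fun i _ => ?_) (le_of_eq ?_)) le_rfl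
    · apply sub_mem (const_mem _ 1)
      have h7 : (fun u : σ → ZMod p => ∑ j, L i j * u j) ∈ PF p σ 1 :=
        sum_mem univ _ fun j _ => smul_mem _ (coord_mem j)
      have h8 := pow_mem h7 (p - 1)
      rwa [mul_one] at h8
    · rw [Finset.card_univ, Fintype.card_fin]
  obtain ⟨u, hu, hgu⟩ := exists_ne_zero hD hg (by
    simpa [zero_pow hp1] using h0)
  apply hL
  rw [mem_biUnion]
  refine ⟨u, Finset.mem_erase.2 ⟨hu, mem_filter.2 ⟨mem_univ _, left_ne_zero_of_mul hgu⟩⟩,
    mem_filter.2 ⟨mem_univ _, fun i => ?_⟩⟩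
  by_contra hne
  have h9 := Finset.prod_ne_zero_iff.1 (right_ne_zero_of_mul hgu) i (mem_univ _)
  rw [ZMod.pow_card_sub_one_eq_one hne, sub_self] at h9
  exact h9 rfl

/-- the line through `x` in direction `u` is contained in the closure of degree `d` of `A` -/
def InCl (d : ℕ) (A : Finset (σ → ZMod p)) (x u : σ → ZMod p) : Prop :=
  ∀ g : MvPolynomial σ (ZMod p), g.totalDegree ≤ d → (∀ a ∈ A, eval a g = 0) →
    ∀ t : ZMod p, eval (x + t • u) g = 0

/-- `x` is a good point -/
def GoodPt (d D : ℕ) (A : Finset (σ → ZMod p)) (x : σ → ZMod p) : Prop :=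
  ∃ P ∈ PF p σ D, P 0 = 1 ∧ ∀ u, P u ≠ 0 → InCl d A x u

open Classical in
theorem good_points (hp3 : 3 ≤ p) {d : ℕ} (hd : 1 ≤ d) (hdp : d < p) : ∃ C : ℕ,
    ∀ (σ : Type) [Fintype σ] [DecidableEq σ] (A : Finset (σ → ZMod p)) (q : ℕ),
      (A.filter fun x => ¬ GoodPt d (C * (q + 1)) A x).card * p ^ q ≤ p ^ Fintype.card σ := by
  obtain ⟨b, hb1, hb⟩ := exists_b p (d - 1) (by omega)
  refine ⟨cc p d * KK b d, ?_⟩
  intro σ _ _ A q
  by_contra hcon
  push Not at hcon
  let V : Submodule (ZMod p) (MvPolynomial σ (ZMod p)) :=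
    { carrier := {g | g.totalDegree ≤ d ∧ ∀ a ∈ A, eval a g = 0}
      add_mem' := by
        rintro f g ⟨h1, h2⟩ ⟨h3, h4⟩
        refine ⟨(totalDegree_add _ _).trans (max_le h1 h3), fun a ha => ?_⟩
        rw [map_add, h2 a ha, h4 a ha, add_zero]
      zero_mem' := by
        refine ⟨?_, fun a _ => by simp⟩
        rw [totalDegree_zero]
        exact Nat.zero_le _
      smul_mem' := by
        rintro c g ⟨h1, h2⟩
        refine ⟨(totalDegree_smul_le _ _).trans h1, fun a ha => ?_⟩
        rw [smul_eval, h2 a ha, mul_zero] }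
  have hVm : ∀ g, g ∈ V ↔ g.totalDegree ≤ d ∧ ∀ a ∈ A, eval a g = 0 := fun g => Iff.rfl
  have hV : ∀ g ∈ V, g.totalDegree ≤ d - 1 + 1 := fun g hg => by
    have := ((hVm g).1 hg).1
    omega
  obtain ⟨x, hx, hgood⟩ := exists_good_point (D := d - 1) (b := b) (q := q) (d := d) hp3 hb _ V
    hV hcon
  obtain ⟨hxA, hxG⟩ := mem_filter.1 hx
  apply hxG
  have hR : ∀ l : List (σ → ZMod p), l.length < d → EE V x l →
      finrank (ZMod p) (NN V x l) ≤ hs b q d := by
    intro l hl hE
    exact (hgood l.length hl l rfl hE).trans (hs_mono b q hb1 (by omega))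
  obtain ⟨P, hP, hP0, hPE⟩ := exists_poly hR d [] (by simp)
    (fun g hg => ((hVm g).1 hg).2 x hxA)
  have hdeg : cc p d * hs b q d ≤ cc p d * KK b d * (q + 1) := by
    rw [mul_assoc]
    exact Nat.mul_le_mul_left _ (hs_le b q d)
  refine ⟨fun u => (P 0)⁻¹ * P u, smul_mem _ (PF_le hdeg hP), inv_mul_cancel₀ hP0, ?_⟩
  intro u hu g hg1 hg2 t
  have hE := hPE u (right_ne_zero_of_mul hu)
  rw [List.append_nil] at hE
  exact line_of_contact hdp (fun g hg => ((hVm g).1 hg).1) hE g ((hVm g).2 ⟨hg1, hg2⟩) t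

open Classical in
/-- **Theorem A.** -/
theorem many_lines (hp3 : 3 ≤ p) {d : ℕ} (hd : 1 ≤ d) (hdp : d < p) : ∃ C : ℕ,
    ∀ (σ : Type) [Fintype σ] [DecidableEq σ] (A : Finset (σ → ZMod p)) (q : ℕ),
      (A.filter fun x => p ^ (C * (q + 1)) * (univ.filter fun u => InCl d A x u).card <
        p ^ Fintype.card σ).card * p ^ q ≤ p ^ Fintype.card σ := by
  obtain ⟨C, hC⟩ := good_points (p := p) hp3 hd hdp
  refine ⟨C + 1, ?_⟩
  intro σ _ _ A q
  refine le_trans (Nat.mul_le_mul_right _ (Finset.card_le_card ?_)) (hC σ A q)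
  intro x hx
  obtain ⟨hxA, hx2⟩ := mem_filter.1 hx
  refine mem_filter.2 ⟨hxA, ?_⟩
  rintro ⟨P, hP, hP1, hPl⟩
  apply absurd hx2
  push Not
  by_cases hn : Fintype.card σ ≤ (C + 1) * (q + 1)
  · have h1 : 1 ≤ (univ.filter fun u => InCl d A x u).card := by
      rw [Nat.one_le_iff_ne_zero, Finset.card_ne_zero]
      refine ⟨0, mem_filter.2 ⟨mem_univ _, hPl 0 ?_⟩⟩
      rw [hP1]
      exact one_ne_zero
    calc p ^ Fintype.card σ ≤ p ^ ((C + 1) * (q + 1)) * 1 := by
          rw [mul_one]
          exact Nat.pow_le_pow_right hp.out.pos hn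
      _ ≤ _ := Nat.mul_le_mul_left _ h1
  · push Not at hn
    have h1 := supp_count (m := Fintype.card σ - (C + 1) * (q + 1)) hP (by
      rw [hP1]; exact one_ne_zero) (by
        have h2 : C * (q + 1) < (C + 1) * (q + 1) * (p - 1) := by
          calc C * (q + 1) < (C + 1) * (q + 1) * 1 := by nlinarith
            _ ≤ _ := Nat.mul_le_mul_left _ (by omega)
        have h3 : (C + 1) * (q + 1) * (p - 1) +
            (Fintype.card σ - (C + 1) * (q + 1)) * (p - 1) = Fintype.card σ * (p - 1) := by
          rw [← add_mul]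
          congr 1
          omega
        omega)
    have h2 : (univ.filter fun u => P u ≠ 0).card ≤
        (univ.filter fun u => InCl d A x u).card := by
      apply Finset.card_le_card
      intro u hu
      exact mem_filter.2 ⟨mem_univ _, hPl u (mem_filter.1 hu).2⟩
    calc p ^ Fintype.card σ = p ^ ((C + 1) * (q + 1)) *
          p ^ (Fintype.card σ - (C + 1) * (q + 1)) := by
          rw [← pow_add]
          congr 1
          omega
      _ ≤ _ := Nat.mul_le_mul_left _ (h1.trans h2)

end Pool.Agent.T6.H37.AP
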