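import Pool.Agent.T6.H37.AP.Jac

/-!
# Points at which the gradients span a space of large dimension
-/

set_option autoImplicit false
set_option linter.unusedSectionVars false

namespace Pool.Agent.T6.H37.AP

open Finset Module MvPolynomial

variable {p : ℕ} [hp : Fact p.Prime] {τ : Type} [Fintype τ] [DecidableEq τ]

/-- the gradient at a point -/
noncomputable def gradAt (x : τ → ZMod p) : MvPolynomial τ (ZMod p) →ₗ[ZMod p] (τ → ZMod p) where
  toFun g := fun j => eval x (pderiv j g)
  map_add' g h := by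
    funext j
    simp
  map_smul' a g := by
    funext j
    simp [smul_eval]

/-- the gradient -/
noncomputable def gradAll :
    MvPolynomial τ (ZMod p) →ₗ[ZMod p] ((τ → ZMod p) → τ → ZMod p) where
  toFun g := fun x j => eval x (pderiv j g)
  map_add' g h := by
    funext x j
    simp
  map_smul' a g := by
    funext x j
    simp [smul_eval]

open Classical in
lemma half_tuples {r : ℕ} (hp3 : 3 ≤ p) (V : Submodule (ZMod p) (MvPolynomial τ (ZMod p)))
    (x : τ → ZMod p) (hr : r ≤ finrank (ZMod p) (V.map (gradAt x))) :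
    Fintype.card (Fin r → V.map (gradAll (p := p) (τ := τ))) ≤
      2 * (univ.filter fun γ : Fin r → V.map (gradAll (p := p) (τ := τ)) =>
        ∀ a : Fin r → ZMod p, ∑ i, a i • (γ i).1 x = 0 → a = 0).card := by
  -- evaluation at `x`
  have hev : ∀ γ ∈ V.map (gradAll (p := p) (τ := τ)),
      (LinearMap.proj (R := ZMod p) (φ := fun _ : τ → ZMod p => τ → ZMod p) x) γ ∈
        V.map (gradAt x) := by
    rintro _ ⟨g, hg, rfl⟩
    exact ⟨g, hg, rfl⟩
  let ev : V.map (gradAll (p := p) (τ := τ)) →ₗ[ZMod p] V.map (gradAt x) :=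
    (LinearMap.proj (R := ZMod p) (φ := fun _ : τ → ZMod p => τ → ZMod p) x).restrict hev
  have hevs : Function.Surjective ev := by
    rintro ⟨_, g, hg, rfl⟩
    exact ⟨⟨gradAll g, g, hg, rfl⟩, rfl⟩
  have h1 := count_bad (p := p) (X := Fin r → V.map (gradAll (p := p) (τ := τ))) (c := r) hp3
    (fun γ a => ∑ i, a i • (γ i).1 x = 0) ?_ ?_
  · have h2 := Finset.card_filter_add_card_filter_not
      (s := (univ : Finset (Fin r → V.map (gradAll (p := p) (τ := τ)))))
      (fun γ => ∃ a : Fin r → ZMod p, a ≠ 0 ∧ ∑ i, a i • (γ i).1 x = 0)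
    rw [Finset.card_univ] at h2
    have h3 : (univ.filter fun γ : Fin r → V.map (gradAll (p := p) (τ := τ)) =>
        ¬ ∃ a : Fin r → ZMod p, a ≠ 0 ∧ ∑ i, a i • (γ i).1 x = 0) =
        univ.filter fun γ : Fin r → V.map (gradAll (p := p) (τ := τ)) =>
        ∀ a : Fin r → ZMod p, ∑ i, a i • (γ i).1 x = 0 → a = 0 := by
      apply Finset.filter_congr
      intro γ _
      constructor
      · intro h a ha
        by_contra hne
        exact h ⟨a, hne, ha⟩
      · rintro h ⟨a, hne, ha⟩
        exact hne (h a ha)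
    rw [h3] at h2
    have h4 : 2 * (univ.filter fun γ : Fin r → V.map (gradAll (p := p) (τ := τ)) =>
        ∃ a : Fin r → ZMod p, a ≠ 0 ∧ ∑ i, a i • (γ i).1 x = 0).card ≤
        Fintype.card (Fin r → V.map (gradAll (p := p) (τ := τ))) := by
      convert h1
    omega
  · intro γ a s h
    have : ∑ i, (s • a) i • (γ i).1 x = s • ∑ i, a i • (γ i).1 x := by
      rw [Finset.smul_sum]
      exact Finset.sum_congr rfl fun i _ => by rw [Pi.smul_apply, smul_assoc]
    rw [this, h, smul_zero]
  · intro a ha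
    let Λ : (Fin r → V.map (gradAll (p := p) (τ := τ))) →ₗ[ZMod p] V.map (gradAt x) :=
      ∑ i, a i • ev.comp (LinearMap.proj i)
    have hΛ : ∀ γ, (Λ γ).1 = ∑ i, a i • (γ i).1 x := by
      intro γ
      simp only [Λ, LinearMap.sum_apply, LinearMap.smul_apply, LinearMap.comp_apply,
        LinearMap.proj_apply, Submodule.coe_sum, Submodule.coe_smul]
      rfl
    have hsurj : Function.Surjective Λ := by
      intro v
      obtain ⟨u, hu⟩ := hevs v
      obtain ⟨k0, hk0⟩ : ∃ k, a k ≠ 0 := by
        by_contra hcon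
        push Not at hcon
        exact ha (funext hcon)
      refine ⟨Pi.single k0 ((a k0)⁻¹ • u), ?_⟩
      simp only [Λ, LinearMap.sum_apply, LinearMap.smul_apply, LinearMap.comp_apply,
        LinearMap.proj_apply]
      rw [Finset.sum_eq_single k0]
      · rw [Pi.single_eq_same, map_smul, hu, smul_smul, mul_inv_cancel₀ hk0, one_smul]
      · intro k _ hk
        rw [Pi.single_eq_of_ne hk, map_zero, smul_zero]
      · intro h
        exact absurd (mem_univ k0) h
    have h2 := card_ker Λ hsurj
    have h3 : p ^ r ≤ Fintype.card (V.map (gradAt x)) := by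
      rw [Module.card_eq_pow_finrank (K := ZMod p) (V := V.map (gradAt x)), ZMod.card]
      exact Nat.pow_le_pow_right hp.out.pos hr
    refine le_trans (Nat.mul_le_mul h3 (le_of_eq ?_)) h2
    congr 1
    ext γ
    simp only [mem_filter, mem_univ, true_and]
    rw [← hΛ]
    constructor
    · intro h
      exact Subtype.ext h
    · intro h
      rw [h]
      rfl

theorem rank_count {D r : ℕ} (hp3 : 3 ≤ p) (V : Submodule (ZMod p) (MvPolynomial τ (ZMod p)))
    (hV : ∀ g ∈ V, g.totalDegree ≤ D + 1) (S : Finset (τ → ZMod p))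
    (hS : ∀ x ∈ S, ∀ g ∈ V, eval x g = 0)
    (hr : ∀ x ∈ S, r ≤ finrank (ZMod p) (V.map (gradAt x))) :
    S.card * p ^ r ≤ 8 * p ^ Fintype.card τ * Np p (Fin r) (r * D / 2) := by
  classical
  obtain ⟨γ, hγ⟩ := average (X := Fin r → V.map (gradAll (p := p) (τ := τ))) S
    (fun γ x => ∀ a : Fin r → ZMod p, ∑ i, a i • (γ i).1 x = 0 → a = 0)
    (fun x hx => by
      convert half_tuples hp3 V x (hr x hx))
  set S' := S.filter fun x => ∀ a : Fin r → ZMod p, ∑ i, a i • (γ i).1 x = 0 → a = 0 with hS'
  have hγ' : S.card ≤ 2 * S'.card := by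
    convert hγ
  choose g hgV hg using fun i => (γ i).2
  have h1 := jacobian_bound (c := r) (D := D) hp3 S' g (fun i => hV _ (hgV i))
    (fun x hx i => hS x (mem_filter.1 hx).1 _ (hgV i)) (fun x hx a ha => by
      apply (mem_filter.1 hx).2
      funext j
      have h2 := ha j
      rw [Finset.sum_apply, Pi.zero_apply, ← h2]
      apply Finset.sum_congr rfl
      intro i _
      rw [← hg i]
      rfl)
  calc S.card * p ^ r ≤ 2 * S'.card * p ^ r := Nat.mul_le_mul_right _ hγ'
    _ = 2 * (S'.card * p ^ r) := by ring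
    _ ≤ 2 * (4 * p ^ Fintype.card τ * Np p (Fin r) (r * D / 2)) := Nat.mul_le_mul_left _ h1
    _ = _ := by ring

end Pool.Agent.T6.H37.AP
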