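import Pool.Agent.T6.H37.AP.Clp
import Pool.Agent.T6.H37.AP.Diff
import Pool.Agent.T6.H37.AP.Count

/-!
# The Jacobian bound

The number of the points of `F_p ^ σ` at which `c` polynomials of degree at most `D + 1` vanish and
have linearly independent gradients is at most `4 p ^ (|σ| - c)` times the number of monomials of
degree at most `c D / 2` in `c` variables.
-/

set_option autoImplicit false
set_option linter.unusedSectionVars false

namespace Pool.Agent.T6.H37.AP

open Finset Module MvPolynomial

variable {p : ℕ} [hp : Fact p.Prime] {σ : Type} [Fintype σ] [DecidableEq σ]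

/-- independent rows: the matrix is surjective -/
lemma surj_of_indep {c : ℕ} (G : Fin c → σ → ZMod p)
    (h : ∀ a : Fin c → ZMod p, (∀ j, ∑ i, a i * G i j = 0) → a = 0) (b : Fin c → ZMod p) :
    ∃ z : σ → ZMod p, ∀ i, ∑ j, G i j * z j = b i := by
  let Γ : (σ → ZMod p) →ₗ[ZMod p] (Fin c → ZMod p) := Matrix.mulVecLin (Matrix.of G)
  have hΓ : LinearMap.range Γ = ⊤ := by
    by_contra hne
    obtain ⟨f, hf, hle⟩ := Submodule.exists_le_ker_of_lt_top _ (lt_top_iff_ne_top.2 hne)
    apply hf
    have h1 : ∀ v, f v = ∑ i, v i * f (Pi.single i 1) := by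
      intro v
      conv_lhs => rw [← Finset.univ_sum_single v]
      rw [map_sum]
      apply Finset.sum_congr rfl
      intro i _
      have : (Pi.single i (v i) : Fin c → ZMod p) = v i • Pi.single i 1 := by
        rw [← Pi.single_smul, smul_eq_mul, mul_one]
      rw [this, map_smul, smul_eq_mul]
    have h2 : (fun i => f (Pi.single i 1)) = 0 := by
      apply h
      intro j
      have h3 : f (Γ (Pi.single j 1)) = 0 := hle (LinearMap.mem_range_self _ _)
      rw [h1] at h3
      rw [← h3]
      apply Finset.sum_congr rfl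
      intro i _
      have : Γ (Pi.single j 1) i = G i j := by
        simp [Γ, Matrix.mulVec, dotProduct, Pi.single_apply]
      rw [this, mul_comm]
    apply LinearMap.ext
    intro v
    rw [h1]
    simp only [LinearMap.zero_apply]
    apply Finset.sum_eq_zero
    intro i _
    rw [congrFun h2 i]
    simp
  obtain ⟨z, hz⟩ := LinearMap.range_eq_top.1 hΓ b
  refine ⟨z, fun i => ?_⟩
  rw [← hz]
  rfl

/-- `E y` -/
def mv {c : ℕ} (E : σ → Fin c → ZMod p) (y : Fin c → ZMod p) : σ → ZMod p :=
  fun j => ∑ k, E j k * y k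

lemma mv_sub {c : ℕ} (E : σ → Fin c → ZMod p) (y y' : Fin c → ZMod p) (j : σ) :
    mv E (y' - y) j = mv E y' j - mv E y j := by
  simp [mv, mul_sub, Finset.sum_sub_distrib]

lemma half_good {c : ℕ} (hp3 : 3 ≤ p) (G : Fin c → σ → ZMod p)
    (h : ∀ a : Fin c → ZMod p, (∀ j, ∑ i, a i * G i j = 0) → a = 0) :
    Fintype.card (σ → Fin c → ZMod p) ≤ 2 * (univ.filter fun E : σ → Fin c → ZMod p =>
      ∀ y : Fin c → ZMod p, y ≠ 0 → ¬ ∀ i, ∑ j, G i j * mv E y j = 0).card := by
  classical
  have h1 := count_bad (p := p) (X := σ → Fin c → ZMod p) (c := c) hp3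
    (fun E y => ∀ i, ∑ j, G i j * mv E y j = 0) ?_ ?_
  · have h2 := Finset.card_filter_add_card_filter_not (s := (univ : Finset (σ → Fin c → ZMod p)))
      (fun E => ∃ y : Fin c → ZMod p, y ≠ 0 ∧ ∀ i, ∑ j, G i j * mv E y j = 0)
    rw [Finset.card_univ] at h2
    have h3 : (univ.filter fun E : σ → Fin c → ZMod p =>
        ¬ ∃ y : Fin c → ZMod p, y ≠ 0 ∧ ∀ i, ∑ j, G i j * mv E y j = 0) =
        univ.filter fun E : σ → Fin c → ZMod p =>
        ∀ y : Fin c → ZMod p, y ≠ 0 → ¬ ∀ i, ∑ j, G i j * mv E y j = 0 := by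
      apply Finset.filter_congr
      intro E _
      push Not
      rfl
    rw [h3] at h2
    have h4 : 2 * (univ.filter fun E : σ → Fin c → ZMod p =>
        ∃ y : Fin c → ZMod p, y ≠ 0 ∧ ∀ i, ∑ j, G i j * mv E y j = 0).card ≤
        Fintype.card (σ → Fin c → ZMod p) := by
      convert h1
    omega
  · intro E y s hE i
    have e : ∀ j, mv E (s • y) j = s * mv E y j := by
      intro j
      simp only [mv, Pi.smul_apply, smul_eq_mul, Finset.mul_sum]
      exact Finset.sum_congr rfl fun k _ => by ring
    simp only [e]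
    have : ∑ j, G i j * (s * mv E y j) = s * ∑ j, G i j * mv E y j := by
      rw [Finset.mul_sum]
      exact Finset.sum_congr rfl fun j _ => by ring
    rw [this, hE i, mul_zero]
  · intro y hy
    let Λ : (σ → Fin c → ZMod p) →ₗ[ZMod p] (Fin c → ZMod p) :=
      { toFun := fun E i => ∑ j, G i j * mv E y j
        map_add' := fun E E' => by
          funext i
          simp only [mv, Pi.add_apply, add_mul, Finset.sum_add_distrib, mul_add]
        map_smul' := fun s E => by
          funext i
          simp only [mv, Pi.smul_apply, smul_eq_mul, RingHom.id_apply, Finset.mul_sum]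
          exact Finset.sum_congr rfl fun j _ => Finset.sum_congr rfl fun k _ => by ring }
    have hsurj : Function.Surjective Λ := by
      intro b
      obtain ⟨z, hz⟩ := surj_of_indep G h b
      obtain ⟨k0, hk0⟩ : ∃ k, y k ≠ 0 := by
        by_contra hcon
        push Not at hcon
        exact hy (funext hcon)
      refine ⟨fun j k => if k = k0 then z j * (y k0)⁻¹ else 0, ?_⟩
      funext i
      change ∑ j, G i j * mv _ y j = b i
      rw [← hz i]
      apply Finset.sum_congr rfl
      intro j _
      simp only [mv, ite_mul, zero_mul, Finset.sum_ite_eq', Finset.mem_univ, if_true]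
      rw [mul_assoc, inv_mul_cancel₀ hk0, mul_one]
    have h2 := card_ker Λ hsurj
    rw [Fintype.card_fun, ZMod.card, Fintype.card_fin] at h2
    refine le_trans (le_of_eq ?_) h2
    congr 2
    ext E
    simp only [mem_filter, mem_univ, true_and]
    exact funext_iff.symm

theorem jacobian_bound {c D : ℕ} (hp3 : 3 ≤ p) (S : Finset (σ → ZMod p))
    (g : Fin c → MvPolynomial σ (ZMod p)) (hg : ∀ i, (g i).totalDegree ≤ D + 1)
    (hS : ∀ x ∈ S, ∀ i, eval x (g i) = 0)
    (hind : ∀ x ∈ S, ∀ a : Fin c → ZMod p,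
      (∀ j, ∑ i, a i * eval x (pderiv j (g i)) = 0) → a = 0) :
    S.card * p ^ c ≤ 4 * p ^ Fintype.card σ * Np p (Fin c) (c * D / 2) := by
  classical
  choose H hH1 hH2 hH3 using fun i => divided_difference (g i) (hg i)
  -- a good matrix
  obtain ⟨E, hE⟩ := average (X := σ → Fin c → ZMod p) S
    (fun E x => ∀ y : Fin c → ZMod p, y ≠ 0 →
      ¬ ∀ i, ∑ j, eval x (pderiv j (g i)) * mv E y j = 0)
    (fun x hx => by
      convert half_good hp3 (fun i j => eval x (pderiv j (g i))) (hind x hx))
  set S' := S.filter fun x => ∀ y : Fin c → ZMod p, y ≠ 0 →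
      ¬ ∀ i, ∑ j, eval x (pderiv j (g i)) * mv E y j = 0 with hS'
  have hE' : S.card ≤ 2 * S'.card := by
    convert hE
  -- the fibres
  let ι : (σ → ZMod p) → (Fin c → ZMod p) → (σ → ZMod p) := fun x₀ y j => x₀ j + mv E y j
  have hfib : ∀ x₀ : σ → ZMod p, (univ.filter fun y => ι x₀ y ∈ S').card ≤
      2 * Np p (Fin c) (c * D / 2) := by
    intro x₀
    let φ : (Fin c ⊕ Fin c → ZMod p) → (σ ⊕ σ → ZMod p) := fun v =>
      Sum.elim (ι x₀ fun k => v (Sum.inl k)) (ι x₀ fun k => v (Sum.inr k))
    have hφ : ∀ l, (fun v => φ v l) ∈ PF p (Fin c ⊕ Fin c) 1 := by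
      intro l
      rcases l with j | j
      · exact add_mem (const_mem 1 (x₀ j))
          (sum_mem univ _ fun k _ => smul_mem (E j k) (coord_mem (Sum.inl k)))
      · exact add_mem (const_mem 1 (x₀ j))
          (sum_mem univ _ fun k _ => smul_mem (E j k) (coord_mem (Sum.inr k)))
    have hf : (fun v : Fin c ⊕ Fin c → ZMod p =>
        (Matrix.of fun i k : Fin c => ∑ j, H i j (φ v) * E j k).det) ∈
        PF p (Fin c ⊕ Fin c) (c * D) := by
      apply det_mem (D := D) (fun i k v => ∑ j, H i j (φ v) * E j k)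
      · intro i k
        apply sum_mem
        intro j _
        have h1 := comp_mem (hH1 i j) φ hφ
        have h2 := smul_mem (E j k) h1
        simpa only [mul_comm] using h2
      · rw [Fintype.card_fin]
    have hmul : ∀ (v : Fin c ⊕ Fin c → ZMod p) (w : Fin c → ZMod p) (i : Fin c),
        (Matrix.of fun i k : Fin c => ∑ j, H i j (φ v) * E j k).mulVec w i =
          ∑ j, H i j (φ v) * mv E w j := by
      intro v w i
      simp only [Matrix.mulVec, dotProduct, Matrix.of_apply, mv, Finset.sum_mul, Finset.mul_sum]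
      rw [Finset.sum_comm]
      exact Finset.sum_congr rfl fun j _ => Finset.sum_congr rfl fun k _ => by ring
    apply two_point _ hf
    · intro y hy h0
      have hx : ι x₀ y ∈ S' := (mem_filter.1 hy).2
      obtain ⟨w, hw, hw0⟩ := Matrix.exists_mulVec_eq_zero_iff.2 h0
      apply (mem_filter.1 hx).2 w hw
      intro i
      have h1 := congrFun hw0 i
      rw [hmul] at h1
      have h2 : φ (Sum.elim y y) = Sum.elim (ι x₀ y) (ι x₀ y) := rfl
      rw [h2] at h1
      simp only [hH3] at h1
      exact h1
    · intro y hy y' hy' hne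
      have hx : ι x₀ y ∈ S' := (mem_filter.1 hy).2
      have hx' : ι x₀ y' ∈ S' := (mem_filter.1 hy').2
      apply Matrix.exists_mulVec_eq_zero_iff.1
      refine ⟨y' - y, sub_ne_zero.2 (Ne.symm hne), ?_⟩
      funext i
      rw [hmul]
      have h2 : φ (Sum.elim y y') = Sum.elim (ι x₀ y) (ι x₀ y') := rfl
      rw [h2]
      have h3 := hH2 i (ι x₀ y) (ι x₀ y')
      rw [hS _ (mem_filter.1 hx).1, hS _ (mem_filter.1 hx').1, sub_zero] at h3
      rw [Pi.zero_apply, h3]
      apply Finset.sum_congr rfl
      intro j _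
      rw [mv_sub]
      simp only [ι]
      ring
  have hdouble : ∑ x₀ : σ → ZMod p, (univ.filter fun y => ι x₀ y ∈ S').card =
      p ^ c * S'.card := by
    simp only [Finset.card_filter]
    rw [Finset.sum_comm]
    have h1 : ∀ y : Fin c → ZMod p, ∑ x₀ : σ → ZMod p, (if ι x₀ y ∈ S' then 1 else 0) =
        S'.card := by
      intro y
      rw [← Finset.card_filter]
      apply Finset.card_bij (fun x₀ _ => ι x₀ y)
      · intro x₀ hx
        exact (mem_filter.1 hx).2
      · intro x₀ _ x₁ _ h
        funext j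
        have := congrFun h j
        exact add_right_cancel this
      · intro x hx
        refine ⟨fun j => x j - mv E y j, ?_, ?_⟩
        · rw [mem_filter]
          refine ⟨mem_univ _, ?_⟩
          have : ι (fun j => x j - mv E y j) y = x := by
            funext j
            simp [ι]
          rw [this]
          exact hx
        · funext j
          simp [ι]
    rw [Finset.sum_congr rfl fun y _ => h1 y, Finset.sum_const, smul_eq_mul, Finset.card_univ,
      Fintype.card_fun, ZMod.card, Fintype.card_fin]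
  have h5 : p ^ c * S'.card ≤ p ^ Fintype.card σ * (2 * Np p (Fin c) (c * D / 2)) := by
    rw [← hdouble]
    refine (Finset.sum_le_sum fun x₀ _ => hfib x₀).trans ?_
    rw [Finset.sum_const, smul_eq_mul, Finset.card_univ, Fintype.card_fun, ZMod.card]
  calc S.card * p ^ c ≤ 2 * S'.card * p ^ c := Nat.mul_le_mul_right _ hE'
    _ = 2 * (p ^ c * S'.card) := by ring
    _ ≤ 2 * (p ^ Fintype.card σ * (2 * Np p (Fin c) (c * D / 2))) := Nat.mul_le_mul_left _ h5
    _ = _ := by ring

end Pool.Agent.T6.H37.AP
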