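import Mathlib

/-!
# Functions of bounded degree on `F_p ^ τ`
-/

set_option autoImplicit false
set_option linter.unusedSectionVars false

namespace Pool.Agent.T6.H37.AP

open Finset Module

variable {p : ℕ} [hp : Fact p.Prime]

/-- the monomial function with exponents `m` -/
def mono (p : ℕ) {τ : Type} [Fintype τ] (m : τ → ℕ) : (τ → ZMod p) → ZMod p :=
  fun x => ∏ i, x i ^ m i

/-- the functions of degree at most `D` -/
def PF (p : ℕ) (τ : Type) [Fintype τ] (D : ℕ) : Submodule (ZMod p) ((τ → ZMod p) → ZMod p) :=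
  Submodule.span (ZMod p) {f | ∃ m : τ → ℕ, ∑ i, m i ≤ D ∧ f = mono p m}

section basic

variable {τ ρ : Type} [Fintype τ] [Fintype ρ]

lemma mono_mem {D : ℕ} {m : τ → ℕ} (h : ∑ i, m i ≤ D) : mono p m ∈ PF p τ D :=
  Submodule.subset_span ⟨m, h, rfl⟩

lemma PF_le {D E : ℕ} (h : D ≤ E) : PF p τ D ≤ PF p τ E := by
  apply Submodule.span_mono
  rintro f ⟨m, hm, rfl⟩
  exact ⟨m, hm.trans h, rfl⟩

lemma mono_zero : mono p (0 : τ → ℕ) = 1 := by
  funext x
  simp [mono]

lemma one_mem (D : ℕ) : (1 : (τ → ZMod p) → ZMod p) ∈ PF p τ D := by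
  rw [← mono_zero]
  exact mono_mem (by simp)

lemma const_mem (D : ℕ) (a : ZMod p) : (fun _ => a : (τ → ZMod p) → ZMod p) ∈ PF p τ D := by
  have h := (PF p τ D).smul_mem a (one_mem D)
  convert h using 1
  funext x
  simp

lemma mono_mul (m m' : τ → ℕ) : mono p m * mono p m' = mono p (m + m') := by
  funext x
  simp only [mono, Pi.mul_apply, Pi.add_apply, pow_add, Finset.prod_mul_distrib]

lemma mul_mem {D E : ℕ} {f g : (τ → ZMod p) → ZMod p} (hf : f ∈ PF p τ D) (hg : g ∈ PF p τ E) :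
    f * g ∈ PF p τ (D + E) := by
  unfold PF at hf
  induction hf using Submodule.span_induction with
  | mem f hf =>
    obtain ⟨m, hm, rfl⟩ := hf
    unfold PF at hg
    induction hg using Submodule.span_induction with
    | mem g hg =>
      obtain ⟨m', hm', rfl⟩ := hg
      rw [mono_mul]
      apply mono_mem
      simp only [Pi.add_apply, Finset.sum_add_distrib]
      omega
    | zero => rw [mul_zero]; exact Submodule.zero_mem _
    | add g g' _ _ h h' => rw [mul_add]; exact Submodule.add_mem _ h h'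
    | smul a g _ h => rw [mul_smul_comm]; exact Submodule.smul_mem _ _ h
  | zero => rw [zero_mul]; exact Submodule.zero_mem _
  | add f f' _ _ h h' => rw [add_mul]; exact Submodule.add_mem _ h h'
  | smul a f _ h => rw [smul_mul_assoc]; exact Submodule.smul_mem _ _ h

lemma mul_mem' {D E K : ℕ} {f g : (τ → ZMod p) → ZMod p} (hf : f ∈ PF p τ D) (hg : g ∈ PF p τ E)
    (h : D + E ≤ K) : (fun x => f x * g x) ∈ PF p τ K := PF_le h (mul_mem hf hg)

lemma prod_mem {ι : Type*} (s : Finset ι) (D : ι → ℕ) (f : ι → (τ → ZMod p) → ZMod p)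
    (hf : ∀ i ∈ s, f i ∈ PF p τ (D i)) : (fun x => ∏ i ∈ s, f i x) ∈ PF p τ (∑ i ∈ s, D i) := by
  classical
  induction s using Finset.induction_on with
  | empty =>
    simp only [Finset.prod_empty, Finset.sum_empty]
    exact const_mem 0 1
  | insert a s ha ih =>
    simp only [Finset.prod_insert ha, Finset.sum_insert ha]
    exact mul_mem (hf a (mem_insert_self _ _)) (ih fun i hi => hf i (mem_insert_of_mem hi))

lemma prod_mem' {ι : Type*} (s : Finset ι) {D K : ℕ} (f : ι → (τ → ZMod p) → ZMod p)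
    (hf : ∀ i ∈ s, f i ∈ PF p τ D) (h : s.card * D ≤ K) :
    (fun x => ∏ i ∈ s, f i x) ∈ PF p τ K := by
  have h1 := prod_mem s (fun _ => D) f hf
  rw [Finset.sum_const, smul_eq_mul] at h1
  exact PF_le h h1

lemma pow_mem {D : ℕ} {f : (τ → ZMod p) → ZMod p} (hf : f ∈ PF p τ D) (k : ℕ) :
    (fun x => f x ^ k) ∈ PF p τ (k * D) := by
  have h := prod_mem' (Finset.range k) (fun _ => f) (fun _ _ => hf)
    (le_refl ((Finset.range k).card * D))
  simpa using h

lemma sum_mem {ι : Type*} (s : Finset ι) {D : ℕ} (f : ι → (τ → ZMod p) → ZMod p)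
    (hf : ∀ i ∈ s, f i ∈ PF p τ D) : (fun x => ∑ i ∈ s, f i x) ∈ PF p τ D := by
  have h := Submodule.sum_mem (PF p τ D) hf
  convert h using 1
  funext x
  rw [Finset.sum_apply]

lemma add_mem {D : ℕ} {f g : (τ → ZMod p) → ZMod p} (hf : f ∈ PF p τ D) (hg : g ∈ PF p τ D) :
    (fun x => f x + g x) ∈ PF p τ D := Submodule.add_mem _ hf hg

lemma sub_mem {D : ℕ} {f g : (τ → ZMod p) → ZMod p} (hf : f ∈ PF p τ D) (hg : g ∈ PF p τ D) :
    (fun x => f x - g x) ∈ PF p τ D := Submodule.sub_mem _ hf hg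

lemma smul_mem {D : ℕ} {f : (τ → ZMod p) → ZMod p} (a : ZMod p) (hf : f ∈ PF p τ D) :
    (fun x => a * f x) ∈ PF p τ D := Submodule.smul_mem _ a hf

lemma coord_mem (i : τ) : (fun x : τ → ZMod p => x i) ∈ PF p τ 1 := by
  classical
  have h : mono p (Pi.single i 1 : τ → ℕ) ∈ PF p τ 1 := mono_mem (by simp)
  convert h using 1
  funext x
  unfold mono
  rw [Finset.prod_eq_single i]
  · simp
  · intro j _ hj
    rw [Pi.single_eq_of_ne hj, pow_zero]
  · intro h
    exact absurd (mem_univ i) h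

lemma comp_mem {D : ℕ} {f : (ρ → ZMod p) → ZMod p} (hf : f ∈ PF p ρ D)
    (φ : (τ → ZMod p) → (ρ → ZMod p)) (hφ : ∀ j, (fun x => φ x j) ∈ PF p τ 1) :
    (fun x => f (φ x)) ∈ PF p τ D := by
  unfold PF at hf
  induction hf using Submodule.span_induction with
  | mem f hf =>
    obtain ⟨m, hm, rfl⟩ := hf
    unfold mono
    have h := prod_mem univ m (fun j x => φ x j ^ m j) (fun j _ => by
      have := pow_mem (hφ j) (m j)
      rwa [mul_one] at this)
    exact PF_le hm h
  | zero => exact Submodule.zero_mem _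
  | add f f' _ _ h h' => exact Submodule.add_mem _ h h'
  | smul a f _ h => exact Submodule.smul_mem _ a h

lemma det_mem {κ : Type} [Fintype κ] [DecidableEq κ] {D K : ℕ}
    (M : κ → κ → (τ → ZMod p) → ZMod p) (hM : ∀ i j, M i j ∈ PF p τ D)
    (hK : Fintype.card κ * D ≤ K) :
    (fun x => (Matrix.of fun i j => M i j x).det) ∈ PF p τ K := by
  simp only [Matrix.det_apply, Matrix.of_apply]
  apply sum_mem
  intro σ _
  have h := prod_mem' univ (fun i => M (σ i) i) (fun i _ => hM _ _) (K := K) (by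
    rw [Finset.card_univ]; exact hK)
  rcases Int.units_eq_one_or (Equiv.Perm.sign σ) with h1 | h1
  · rw [h1]
    simpa using h
  · rw [h1]
    have h2 := Submodule.neg_mem _ h
    convert h2 using 1
    funext x
    simp

end basic

/-- the number of monomials with exponents less than `p` and degree at most `D` -/
def Np (p : ℕ) (τ : Type) [Fintype τ] [DecidableEq τ] (D : ℕ) : ℕ :=
  (univ.filter fun m : τ → Fin p => ∑ i, (m i : ℕ) ≤ D).card

lemma pow_reduce (e : ℕ) : ∃ e', e' ≤ e ∧ e' < p ∧ ∀ x : ZMod p, x ^ e = x ^ e' := by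
  induction e using Nat.strong_induction_on with
  | _ e ih =>
    by_cases he : e < p
    · exact ⟨e, le_refl _, he, fun _ => rfl⟩
    · have h2 := hp.out.two_le
      obtain ⟨e', h1, h3, h4⟩ := ih (e - p + 1) (by omega)
      refine ⟨e', by omega, h3, fun x => ?_⟩
      rw [← h4 x, pow_succ]
      conv_lhs => rw [show e = (e - p) + p by omega, pow_add, ZMod.pow_card]

lemma finrank_PF_le {τ : Type} [Fintype τ] [DecidableEq τ] (D : ℕ) :
    finrank (ZMod p) (PF p τ D) ≤ Np p τ D := by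
  classical
  set T : Finset ((τ → ZMod p) → ZMod p) :=
    (univ.filter fun m : τ → Fin p => ∑ i, (m i : ℕ) ≤ D).image (fun m => mono p fun i => (m i : ℕ))
    with hT
  have h1 : PF p τ D ≤ Submodule.span (ZMod p) (T : Set ((τ → ZMod p) → ZMod p)) := by
    apply Submodule.span_mono
    rintro f ⟨m, hm, rfl⟩
    choose e he1 he2 he3 using fun i => pow_reduce (p := p) (m i)
    rw [hT, Finset.coe_image]
    refine ⟨fun i => ⟨e i, he2 i⟩, ?_, ?_⟩
    · simp only [Finset.coe_filter, mem_univ, true_and, Set.mem_ofPred_eq]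
      exact (Finset.sum_le_sum fun i _ => he1 i).trans hm
    · funext x
      simp only [mono]
      exact Finset.prod_congr rfl fun i _ => (he3 i (x i)).symm
  refine (Submodule.finrank_mono h1).trans ((finrank_span_finset_le_card T).trans ?_)
  rw [hT]
  exact Finset.card_image_le

lemma chernoff {τ : Type} [Fintype τ] [DecidableEq τ] (D : ℕ) (t : ℝ) (ht : 0 < t) (ht1 : t ≤ 1) :
    (Np p τ D : ℝ) * t ^ D ≤ (∑ i ∈ range p, t ^ i) ^ Fintype.card τ := by
  have h1 : (∑ i ∈ range p, t ^ i) ^ Fintype.card τ =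
      ∑ m : τ → Fin p, ∏ i, t ^ ((m i : ℕ)) := by
    rw [← Fin.sum_univ_eq_sum_range (fun i => t ^ i) p, ← Finset.card_univ, ← Finset.prod_const,
      Finset.prod_univ_sum, Fintype.piFinset_univ]
  rw [h1]
  calc (Np p τ D : ℝ) * t ^ D
      = ∑ m ∈ univ.filter (fun m : τ → Fin p => ∑ i, (m i : ℕ) ≤ D), t ^ D := by
        rw [Finset.sum_const, nsmul_eq_mul]; rfl
    _ ≤ ∑ m ∈ univ.filter (fun m : τ → Fin p => ∑ i, (m i : ℕ) ≤ D), ∏ i, t ^ ((m i : ℕ)) := by
        apply Finset.sum_le_sum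
        intro m hm
        rw [Finset.prod_pow_eq_pow_sum]
        exact pow_le_pow_of_le_one ht.le ht1 (mem_filter.1 hm).2
    _ ≤ _ := by
        apply Finset.sum_le_sum_of_subset_of_nonneg (Finset.filter_subset _ _)
        intro m _ _
        exact Finset.prod_nonneg fun i _ => pow_nonneg ht.le _

end Pool.Agent.T6.H37.AP
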