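import Pool.Agent.T6.H37.AP.Clp

/-!
# Three-term progressions with an algebraic condition at the first point
-/

set_option autoImplicit false
set_option linter.unusedSectionVars false

namespace Pool.Agent.T6.H37.AP

open Finset Module

variable {p : ℕ} [hp : Fact p.Prime] {σ : Type} [Fintype σ] [DecidableEq σ]

lemma exists_coeff {D : ℕ} {f : (σ → ZMod p) → ZMod p} (hf : f ∈ PF p σ D) :
    ∃ c : (σ → Fin p) → ZMod p, ∀ x, f x =
      ∑ m ∈ univ.filter (fun m : σ → Fin p => ∑ i, (m i : ℕ) ≤ D), c m *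
        mono p (fun i => (m i : ℕ)) x := by
  classical
  have h1 : PF p σ D ≤ Submodule.span (ZMod p) ((fun m : σ → Fin p => mono p fun i => (m i : ℕ)) ''
      ((univ.filter fun m : σ → Fin p => ∑ i, (m i : ℕ) ≤ D : Finset (σ → Fin p)) :
        Set (σ → Fin p))) := by
    apply Submodule.span_mono
    rintro f ⟨m, hm, rfl⟩
    choose e he1 he2 he3 using fun i => pow_reduce (p := p) (m i)
    refine ⟨fun i => ⟨e i, he2 i⟩, ?_, ?_⟩
    · simp only [Finset.coe_filter, mem_univ, true_and, Set.mem_ofPred_eq]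
      exact (Finset.sum_le_sum fun i _ => he1 i).trans hm
    · funext x
      simp only [mono]
      exact Finset.prod_congr rfl fun i _ => (he3 i (x i)).symm
  obtain ⟨c, hc⟩ := (Submodule.mem_span_image_finset_iff_exists_fun' (ZMod p)).1 (h1 hf)
  refine ⟨c, fun x => ?_⟩
  rw [← hc, Finset.sum_apply]
  rfl

theorem three_point' (hp3 : 3 ≤ p) {D : ℕ} (S : Finset (σ → ZMod p))
    (P : (σ → ZMod p) → (σ → ZMod p) → ZMod p) (hP : ∀ x ∈ S, P x ∈ PF p σ D)
    (hP1 : ∀ x ∈ S, P x 0 = 1)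
    (hno : ∀ x ∈ S, ∀ y ∈ S, ∀ z ∈ S, x - 2 • y + z = 0 → P x (y - x) ≠ 0 → x = y) :
    S.card ≤ Np p σ D * Np p σ (Fintype.card σ * (p - 1) / 3) +
      Np p σ (Fintype.card σ * (p - 1) / 3 + D) + Np p σ (Fintype.card σ * (p - 1) / 3) := by
  classical
  have hp1 : p - 1 ≠ 0 := by omega
  set E := Fintype.card σ * (p - 1) / 3 with hE
  -- the indicator of the equation
  let f₀ : (σ ⊕ σ ⊕ σ → ZMod p) → ZMod p := fun v =>
    ∏ j : σ, (1 - (v (Sum.inl j) - 2 * v (Sum.inr (Sum.inl j)) + v (Sum.inr (Sum.inr j))) ^ (p - 1))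
  have hf₀ : f₀ ∈ PF p (σ ⊕ σ ⊕ σ) (Fintype.card σ * (p - 1)) := by
    apply prod_mem' univ (D := p - 1)
    · intro j _
      apply sub_mem (const_mem _ 1)
      have h1 : (fun v : σ ⊕ σ ⊕ σ → ZMod p =>
          v (Sum.inl j) - 2 * v (Sum.inr (Sum.inl j)) + v (Sum.inr (Sum.inr j))) ∈
          PF p (σ ⊕ σ ⊕ σ) 1 :=
        add_mem (sub_mem (coord_mem _) (smul_mem 2 (coord_mem _))) (coord_mem _)
      have h2 := pow_mem h1 (p - 1)
      rwa [mul_one] at h2
    · rw [Finset.card_univ]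
  have hval : ∀ x y z : σ → ZMod p, f₀ (Sum.elim x (Sum.elim y z)) =
      if x - 2 • y + z = 0 then 1 else 0 := by
    intro x y z
    simp only [f₀, Sum.elim_inl, Sum.elim_inr]
    split_ifs with h
    · apply Finset.prod_eq_one
      intro j _
      have h1 := congrFun h j
      simp only [Pi.add_apply, Pi.sub_apply, Pi.zero_apply, nsmul_eq_mul, Pi.mul_apply,
        Pi.ofNat_apply, Nat.cast_ofNat] at h1
      rw [h1, zero_pow hp1, sub_zero]
    · obtain ⟨j, hj⟩ : ∃ j, x j - 2 * y j + z j ≠ 0 := by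
        by_contra hcon
        push Not at hcon
        apply h
        funext j
        simp only [Pi.add_apply, Pi.sub_apply, Pi.zero_apply, nsmul_eq_mul, Pi.mul_apply,
          Pi.ofNat_apply, Nat.cast_ofNat]
        exact hcon j
      apply Finset.prod_eq_zero (mem_univ j)
      rw [ZMod.pow_card_sub_one_eq_one hj, sub_self]
  obtain ⟨f₁, f₂, f₃, a1, a2, a3, a4⟩ := split_three hf₀
  -- the coefficients of the conditions
  have hcoef : ∀ x : S, ∃ c : (σ → Fin p) → ZMod p, ∀ y, P x.1 (y - x.1) =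
      ∑ m ∈ univ.filter (fun m : σ → Fin p => ∑ i, (m i : ℕ) ≤ D), c m *
        mono p (fun i => (m i : ℕ)) y := by
    intro x
    apply exists_coeff (f := fun y => P x.1 (y - x.1))
    apply comp_mem (hP x.1 x.2) (fun y => y - x.1)
    intro j
    exact sub_mem (coord_mem j) (const_mem 1 (x.1 j))
  choose φ hφ using hcoef
  set Rm : Finset (σ → Fin p) := univ.filter (fun m : σ → Fin p => ∑ i, (m i : ℕ) ≤ D) with hRm
  -- the first space
  let Ψ : (Rm → PF p σ E) →ₗ[ZMod p] (S → ZMod p) :=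
    { toFun := fun G s => ∑ β : Rm, (G β).1 s.1 * φ s β.1
      map_add' := fun G G' => by
        funext s
        simp [add_mul, Finset.sum_add_distrib]
      map_smul' := fun a G => by
        funext s
        simp only [Pi.smul_apply, Submodule.coe_smul, smul_eq_mul, RingHom.id_apply,
          Finset.mul_sum]
        exact Finset.sum_congr rfl fun β _ => by ring }
  have hrank : finrank (ZMod p) (LinearMap.range Ψ) ≤ Np p σ D * Np p σ E := by
    refine (LinearMap.finrank_range_le Ψ).trans ?_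
    rw [Module.finrank_pi_fintype, Finset.sum_const, smul_eq_mul, Finset.card_univ,
      Fintype.card_coe]
    exact Nat.mul_le_mul_left _ (finrank_PF_le E)
  have hdiag := TH360.RS.diag_bound (I := S)
    (fun x y z => f₁ x.1 y.1 z.1 * P x.1 (y.1 - x.1))
    (fun x y z => f₂ x.1 y.1 z.1 * P x.1 (y.1 - x.1))
    (fun x y z => f₃ x.1 y.1 z.1 * P x.1 (y.1 - x.1))
    (LinearMap.range Ψ) ((PF p σ (E + D)).map (res p S)) ((PF p σ E).map (res p S))
    ?_ ?_ ?_ ?_
  · rw [Fintype.card_coe] at hdiag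
    have h2 := finrank_res_le S (E + D)
    have h3 := finrank_res_le S E
    omega
  · intro y z
    refine ⟨fun β => ⟨fun x => mono p (fun i => ((β.1 i : Fin p) : ℕ)) y.1 * f₁ x y.1 z.1,
      smul_mem _ (a1 y.1 z.1)⟩, ?_⟩
    funext x
    change ∑ β : Rm, mono p (fun i => ((β.1 i : Fin p) : ℕ)) y.1 * f₁ x.1 y.1 z.1 * φ x β.1 =
      f₁ x.1 y.1 z.1 * P x.1 (y.1 - x.1)
    rw [hφ x y.1, Finset.mul_sum, ← Finset.sum_coe_sort Rm]
    exact Finset.sum_congr rfl fun β _ => by ring
  · intro x z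
    refine ⟨fun y => f₂ x.1 y z.1 * P x.1 (y - x.1), ?_, rfl⟩
    refine mul_mem' (a2 x.1 z.1) ?_ le_rfl
    exact comp_mem (hP x.1 x.2) (fun y => y - x.1)
      (fun j => sub_mem (coord_mem j) (const_mem 1 (x.1 j)))
  · intro x y
    refine ⟨fun z => P x.1 (y.1 - x.1) * f₃ x.1 y.1 z, smul_mem _ (a3 x.1 y.1), ?_⟩
    funext z
    exact mul_comm _ _
  · intro x y z
    rw [← add_mul, ← add_mul, ← a4, hval]
    by_cases h : x = y ∧ y = z
    · obtain ⟨rfl, rfl⟩ := h
      have h0 : x.1 - 2 • x.1 + x.1 = 0 := by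
        rw [two_smul]
        abel
      rw [if_pos h0, if_pos ⟨rfl, rfl⟩, one_mul, sub_self, hP1 x.1 x.2]
    · rw [if_neg h]
      by_cases h1 : x.1 - 2 • y.1 + z.1 = 0
      · rw [if_pos h1, one_mul]
        by_contra hne
        have h2 := hno x.1 x.2 y.1 y.2 z.1 z.2 h1 hne
        apply h
        refine ⟨Subtype.ext h2, Subtype.ext ?_⟩
        rw [h2, two_smul] at h1
        have h3 : z.1 - y.1 = 0 := by
          rw [← h1]
          abel
        exact (sub_eq_zero.1 h3).symm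
      · rw [if_neg h1, zero_mul]

end Pool.Agent.T6.H37.AP
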