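import Pool.Agent.T6.H37.AP.Good
import Pool.Agent.T6.H37.AP.Three

/-!
# Three-term progressions whose line is contained in the closure
-/

set_option autoImplicit false
set_option linter.unusedSectionVars false

namespace Pool.Agent.T6.H37.AP

open Finset Module MvPolynomial Filter Topology

lemma exists_s3 (p : ℕ) (hp3 : 3 ≤ p) :
    ∃ s : ℝ, 0 < s ∧ s < 1 ∧ ∑ i ∈ range p, s ^ (3 * i) < p * s ^ (p - 1) := by
  set f : ℝ → ℝ := fun s => p * s ^ (p - 1) - ∑ i ∈ range p, s ^ (3 * i) with hf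
  have hder : HasDerivAt f (p * (((p - 1 : ℕ) : ℝ) * 1 ^ (p - 1 - 1)) -
      ∑ i ∈ range p, ((3 * i : ℕ) : ℝ) * 1 ^ (3 * i - 1)) 1 := by
    apply HasDerivAt.sub
    · exact (hasDerivAt_pow (p - 1) 1).const_mul _
    · exact HasDerivAt.fun_sum fun i _ => hasDerivAt_pow (3 * i) 1
  have hval : p * (((p - 1 : ℕ) : ℝ) * 1 ^ (p - 1 - 1)) -
      ∑ i ∈ range p, ((3 * i : ℕ) : ℝ) * 1 ^ (3 * i - 1) < 0 := by
    simp only [one_pow, mul_one]
    have h2 : (∑ i ∈ range p, i) * 2 = p * (p - 1) := Finset.sum_range_id_mul_two p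
    have h3 : ((∑ i ∈ range p, i : ℕ) : ℝ) * 2 = p * (p - 1) := by
      have h4 : (((∑ i ∈ range p, i) * 2 : ℕ) : ℝ) = ((p * (p - 1) : ℕ) : ℝ) := by rw [h2]
      rw [Nat.cast_mul, Nat.cast_mul, Nat.cast_sub (by omega), Nat.cast_one] at h4
      simpa using h4
    have h1 : ∑ i ∈ range p, ((3 * i : ℕ) : ℝ) = 3 * ((∑ i ∈ range p, i : ℕ) : ℝ) := by
      rw [Nat.cast_sum, Finset.mul_sum]
      exact Finset.sum_congr rfl fun i _ => by push_cast; ring
    rw [h1, Nat.cast_sub (by omega), Nat.cast_one]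
    have h5 : (3 : ℝ) ≤ p := by exact_mod_cast hp3
    nlinarith
  have hf1 : f 1 = 0 := by simp [hf]
  have h1 := hasDerivAt_iff_tendsto_slope.1 hder
  have h2 : ∀ᶠ s in 𝓝[≠] (1 : ℝ), slope f 1 s < 0 := h1.eventually_lt_const hval
  have h3 : ∀ᶠ s in 𝓝[<] (1 : ℝ), slope f 1 s < 0 :=
    h2.filter_mono (nhdsWithin_mono _ fun s hs => ne_of_lt hs)
  have h4 : ∀ᶠ s in 𝓝[<] (1 : ℝ), s < 1 := eventually_mem_nhdsWithin
  have h5 : ∀ᶠ s in 𝓝[<] (1 : ℝ), 0 < s :=
    (eventually_gt_nhds (by norm_num : (0 : ℝ) < 1)).filter_mono nhdsWithin_le_nhds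
  obtain ⟨s, hs1, hs2, hs3⟩ := (h3.and (h4.and h5)).exists
  refine ⟨s, hs3, hs2, ?_⟩
  rw [slope_def_field, hf1, sub_zero, div_lt_iff_of_neg (by linarith), zero_mul] at hs1
  simp only [hf] at hs1
  linarith

/-- the numerical estimate -/
lemma numeric (p : ℕ) [hp : Fact p.Prime] (hp3 : 3 ≤ p) (C₁ : ℕ) : ∃ C : ℕ, ∀ (σ : Type)
    [Fintype σ] [DecidableEq σ] (q : ℕ), C * (q + 1) ≤ Fintype.card σ →
      (Np p σ (C₁ * (q + 1)) * Np p σ (Fintype.card σ * (p - 1) / 3) +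
      Np p σ (Fintype.card σ * (p - 1) / 3 + C₁ * (q + 1)) +
      Np p σ (Fintype.card σ * (p - 1) / 3)) * p ^ q < 2 * p ^ Fintype.card σ := by
  obtain ⟨s, hs0, hs1, hs2⟩ := exists_s3 p hp3
  have hp0 : (0 : ℝ) < p := by
    have : 0 < p := by omega
    exact_mod_cast this
  set Sg := ∑ i ∈ range p, s ^ (3 * i) with hSg
  have hsD : 0 < s ^ (p - 1) := pow_pos hs0 _
  have hSg1 : 1 ≤ Sg := by
    have h1 : s ^ (3 * 0) ≤ Sg :=
      Finset.single_le_sum (f := fun i => s ^ (3 * i)) (fun i _ => pow_nonneg hs0.le _)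
        (mem_range.2 (by omega))
    simpa using h1
  set ρ := Sg / s ^ (p - 1) with hρ
  have hρ0 : 0 < ρ := div_pos (by linarith) hsD
  have hρp : ρ < p := by
    rw [hρ, div_lt_iff₀ hsD]
    exact hs2
  -- the second parameter
  set t : ℝ := (1 - ρ / p) / 2 with ht
  have hr1 : ρ / p < 1 := (div_lt_one hp0).2 hρp
  have hr0 : 0 < ρ / p := div_pos hρ0 hp0
  have ht0 : 0 < t := by
    rw [ht]
    linarith
  have ht1 : t < 1 / 2 := by
    rw [ht]
    linarith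
  set s₂ := ∑ i ∈ range p, t ^ i with hs₂
  have hs₂1 : 1 ≤ s₂ := by
    have h1 : t ^ 0 ≤ s₂ := Finset.single_le_sum (f := fun i => t ^ i)
      (fun i _ => pow_nonneg ht0.le _) (mem_range.2 (by omega))
    simpa using h1
  have hs₂2 : s₂ ≤ 1 / (1 - t) := by
    rw [hs₂, geom_sum_eq (by linarith), ← neg_div_neg_eq]
    apply div_le_div₀ zero_le_one _ (by linarith) (by linarith)
    have := pow_nonneg ht0.le p
    linarith
  set ρ₃ := ρ * s₂ with hρ₃
  have hρ₃0 : 0 < ρ₃ := mul_pos hρ0 (by linarith)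
  have hρρ : ρ ≤ ρ₃ := by
    rw [hρ₃]
    nlinarith
  have hρ₃p : ρ₃ < p := by
    have h1 : ρ₃ ≤ ρ * (1 / (1 - t)) := mul_le_mul_of_nonneg_left hs₂2 hρ0.le
    have h2 : ρ * (1 / (1 - t)) < p := by
      rw [mul_one_div, div_lt_iff₀ (by linarith)]
      have h3 : ρ = p * (ρ / p) := by
        field_simp
      have h4 : 1 - t = (1 + ρ / p) / 2 := by
        rw [ht]
        ring
      rw [h4]
      nlinarith
    linarith
  set M := max (s ^ 3)⁻¹ t⁻¹ with hM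
  have hM1 : 1 ≤ M := by
    refine le_trans ?_ (le_max_right _ _)
    rw [one_le_inv₀ ht0]
    linarith
  have hM0 : 0 < M := by linarith
  -- the constant
  obtain ⟨C, hC⟩ : ∃ C : ℕ, 3 * M ^ C₁ * p < (p / ρ₃) ^ C := by
    exact pow_unbounded_of_one_lt _ ((one_lt_div hρ₃0).2 hρ₃p)
  refine ⟨C, ?_⟩
  intro σ _ _ q hq
  set n := Fintype.card σ with hn
  set D := C₁ * (q + 1) with hD
  set E := n * (p - 1) / 3 with hE
  have b1 : (Np p σ E : ℝ) ≤ ρ ^ n := by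
    have h1 := chernoff (p := p) (τ := σ) E (s ^ 3) (by positivity) (pow_le_one₀ hs0.le hs1.le)
    have h2 : ∑ i ∈ range p, (s ^ 3) ^ i = Sg := by
      rw [hSg]
      exact Finset.sum_congr rfl fun i _ => by rw [← pow_mul]
    rw [h2, ← pow_mul] at h1
    have h3 : s ^ (n * (p - 1)) ≤ s ^ (3 * E) :=
      pow_le_pow_of_le_one hs0.le hs1.le (by omega)
    rw [hρ, div_pow, le_div_iff₀ (pow_pos hsD n), ← pow_mul, mul_comm (p - 1) n]
    exact (mul_le_mul_of_nonneg_left h3 (Nat.cast_nonneg _)).trans h1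
  have b2 : (Np p σ (E + D) : ℝ) ≤ ρ ^ n * M ^ D := by
    have h1 := chernoff (p := p) (τ := σ) (E + D) (s ^ 3) (by positivity)
      (pow_le_one₀ hs0.le hs1.le)
    have h2 : ∑ i ∈ range p, (s ^ 3) ^ i = Sg := by
      rw [hSg]
      exact Finset.sum_congr rfl fun i _ => by rw [← pow_mul]
    rw [h2, pow_add, ← mul_assoc] at h1
    have h3 : s ^ (n * (p - 1)) ≤ (s ^ 3) ^ E := by
      rw [← pow_mul]
      exact pow_le_pow_of_le_one hs0.le hs1.le (by omega)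
    have hs3 : 0 < (s ^ 3) ^ D := by positivity
    have h4 : (Np p σ (E + D) : ℝ) ≤ ρ ^ n * ((s ^ 3)⁻¹) ^ D := by
      rw [inv_pow, ← div_eq_mul_inv, le_div_iff₀ hs3, hρ, div_pow, le_div_iff₀ (pow_pos hsD n),
        ← pow_mul s (p - 1) n, mul_comm (p - 1) n]
      calc (Np p σ (E + D) : ℝ) * (s ^ 3) ^ D * s ^ (n * (p - 1))
          ≤ (Np p σ (E + D) : ℝ) * (s ^ 3) ^ D * (s ^ 3) ^ E :=
            mul_le_mul_of_nonneg_left h3 (by positivity)
        _ = (Np p σ (E + D) : ℝ) * (s ^ 3) ^ E * (s ^ 3) ^ D := by ring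
        _ ≤ _ := h1
    refine h4.trans (mul_le_mul_of_nonneg_left ?_ (by positivity))
    exact pow_le_pow_left₀ (by positivity) (le_max_left _ _) _
  have b3 : (Np p σ D : ℝ) ≤ s₂ ^ n * M ^ D := by
    have h1 := chernoff (p := p) (τ := σ) D t ht0 (by linarith)
    have h4 : (Np p σ D : ℝ) ≤ s₂ ^ n * (t⁻¹) ^ D := by
      rw [inv_pow, ← div_eq_mul_inv, le_div_iff₀ (pow_pos ht0 D)]
      exact h1
    refine h4.trans (mul_le_mul_of_nonneg_left ?_ (by positivity))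
    exact pow_le_pow_left₀ (by positivity) (le_max_right _ _) _
  have hMD : 1 ≤ M ^ D := one_le_pow₀ hM1
  have hρn : ρ ^ n ≤ ρ₃ ^ n := pow_le_pow_left₀ hρ0.le hρρ n
  have b4 : (Np p σ D : ℝ) * Np p σ E + Np p σ (E + D) + Np p σ E ≤ 3 * (ρ₃ ^ n * M ^ D) := by
    have c1 : (Np p σ D : ℝ) * Np p σ E ≤ ρ₃ ^ n * M ^ D := by
      calc (Np p σ D : ℝ) * Np p σ E ≤ (s₂ ^ n * M ^ D) * ρ ^ n :=
            mul_le_mul b3 b1 (Nat.cast_nonneg _) (by positivity)
        _ = ρ₃ ^ n * M ^ D := by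
            rw [hρ₃, mul_pow]
            ring
    have c2 : (Np p σ (E + D) : ℝ) ≤ ρ₃ ^ n * M ^ D :=
      b2.trans (mul_le_mul_of_nonneg_right hρn (by positivity))
    have c3 : (Np p σ E : ℝ) ≤ ρ₃ ^ n * M ^ D := by
      calc (Np p σ E : ℝ) ≤ ρ ^ n * 1 := by
            rw [mul_one]
            exact b1
        _ ≤ ρ₃ ^ n * M ^ D := mul_le_mul hρn hMD zero_le_one (by positivity)
    linarith
  have hpρ : 1 ≤ p / ρ₃ := (one_le_div hρ₃0).2 hρ₃p.le
  have b5 : 3 * (ρ₃ ^ n * M ^ D) * p ^ q ≤ (p : ℝ) ^ n := by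
    have c1 : (3 * M ^ C₁ * p) ^ (q + 1) ≤ (p / ρ₃) ^ n := by
      calc (3 * M ^ C₁ * p) ^ (q + 1) ≤ ((p / ρ₃) ^ C) ^ (q + 1) :=
            pow_le_pow_left₀ (by positivity) hC.le _
        _ = (p / ρ₃) ^ (C * (q + 1)) := by rw [← pow_mul]
        _ ≤ (p / ρ₃) ^ n := pow_le_pow_right₀ hpρ hq
    have c2 : 3 * M ^ D * p ^ q ≤ (3 * M ^ C₁ * p) ^ (q + 1) := by
      rw [mul_pow, mul_pow, hD, pow_mul]
      have c3 : (3 : ℝ) ≤ 3 ^ (q + 1) := by
        calc (3 : ℝ) = 3 ^ 1 := by norm_num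
          _ ≤ 3 ^ (q + 1) := pow_le_pow_right₀ (by norm_num) (by omega)
      have c4 : (p : ℝ) ^ q ≤ p ^ (q + 1) :=
        pow_le_pow_right₀ (by
          have : 1 ≤ p := by omega
          exact_mod_cast this) (by omega)
      apply mul_le_mul _ c4 (by positivity) (by positivity)
      exact mul_le_mul_of_nonneg_right c3 (by positivity)
    calc 3 * (ρ₃ ^ n * M ^ D) * p ^ q = ρ₃ ^ n * (3 * M ^ D * p ^ q) := by ring
      _ ≤ ρ₃ ^ n * (p / ρ₃) ^ n := mul_le_mul_of_nonneg_left (c2.trans c1) (by positivity)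
      _ = p ^ n := by
        rw [← mul_pow]
        congr 1
        field_simp
  have hpn : (0 : ℝ) < p ^ n := by positivity
  have hfin : (((Np p σ D * Np p σ E + Np p σ (E + D) + Np p σ E) * p ^ q : ℕ) : ℝ) <
      ((2 * p ^ n : ℕ) : ℝ) := by
    push_cast
    calc ((Np p σ D : ℝ) * Np p σ E + Np p σ (E + D) + Np p σ E) * p ^ q
        ≤ 3 * (ρ₃ ^ n * M ^ D) * p ^ q := mul_le_mul_of_nonneg_right b4 (by positivity)
      _ ≤ p ^ n := b5
      _ < 2 * p ^ n := by linarith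
  exact_mod_cast hfin

variable {p : ℕ} [hp : Fact p.Prime]

/-- **Theorem C.** -/
theorem three_line (hp3 : 3 ≤ p) {d : ℕ} (hd : 1 ≤ d) (hdp : d < p) : ∃ C : ℕ, ∀ (σ : Type)
    [Fintype σ] [DecidableEq σ] (A : Finset (σ → ZMod p)) (q : ℕ),
    p ^ Fintype.card σ < A.card * p ^ q → C * (q + 1) ≤ Fintype.card σ →
    ∃ x y : σ → ZMod p, y ≠ 0 ∧ x ∈ A ∧ x + y ∈ A ∧ x + 2 • y ∈ A ∧ InCl d A x y := by
  classical
  obtain ⟨C₁, hC₁⟩ := good_points (p := p) hp3 hd hdp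
  obtain ⟨C₂, hC₂⟩ := numeric p hp3 C₁
  refine ⟨2 * C₂, ?_⟩
  intro σ _ _ A q hA hq
  -- the good points
  set S := A.filter fun x => GoodPt d (C₁ * (q + 1 + 1)) A x with hS
  have h1 := hC₁ σ A (q + 1)
  have h2 := hC₂ σ (q + 1) (by
    calc C₂ * (q + 1 + 1) ≤ C₂ * (2 * (q + 1)) := Nat.mul_le_mul_left _ (by omega)
      _ = 2 * C₂ * (q + 1) := by ring
      _ ≤ _ := hq)
  have h3 : S.card + (A.filter fun x => ¬ GoodPt d (C₁ * (q + 1 + 1)) A x).card = A.card :=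
    Finset.card_filter_add_card_filter_not _
  have h4 : 2 * p ^ Fintype.card σ < S.card * p ^ (q + 1) := by
    have h5 : 3 * p ^ Fintype.card σ < A.card * p ^ (q + 1) := by
      calc 3 * p ^ Fintype.card σ ≤ p * p ^ Fintype.card σ := Nat.mul_le_mul_right _ hp3
        _ < p * (A.card * p ^ q) := Nat.mul_lt_mul_of_pos_left hA hp.out.pos
        _ = A.card * p ^ (q + 1) := by rw [pow_succ]; ring
    rw [← h3, add_mul] at h5
    omega
  by_contra hcon
  push Not at hcon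
  have hch : ∀ x : σ → ZMod p, ∃ P : (σ → ZMod p) → ZMod p, x ∈ S →
      P ∈ PF p σ (C₁ * (q + 1 + 1)) ∧ P 0 = 1 ∧ ∀ u, P u ≠ 0 → InCl d A x u := by
    intro x
    by_cases hx : x ∈ S
    · obtain ⟨P, a1, a2, a3⟩ := (mem_filter.1 hx).2
      exact ⟨P, fun _ => ⟨a1, a2, a3⟩⟩
    · exact ⟨0, fun h => absurd h hx⟩
  choose P hP using hch
  have h6 := three_point' hp3 S P (fun x hx => (hP x hx).1) (fun x hx => (hP x hx).2.1)
    (fun x hx y hy z hz hxyz hPxy => by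
      by_contra hne
      have h7 := (hP x hx).2.2 _ hPxy
      have h8 : x + (y - x) ∈ A := by
        rw [add_sub_cancel]
        exact (mem_filter.1 hy).1
      have h9 : x + 2 • (y - x) ∈ A := by
        have : x + 2 • (y - x) = z := by
          rw [smul_sub, two_smul, two_smul]
          rw [two_smul] at hxyz
          have h10 : z = y + y - x := by
            rw [eq_sub_iff_add_eq, add_comm]
            have : x + z - (y + y) = 0 := by
              rw [← hxyz]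
              abel
            exact sub_eq_zero.1 this
          rw [h10]
          abel
        rw [this]
        exact (mem_filter.1 hz).1
      exact hcon x (y - x) (sub_ne_zero.2 (Ne.symm hne)) (mem_filter.1 hx).1 h8 h9 h7)
  have h10 : S.card * p ^ (q + 1) ≤ _ := Nat.mul_le_mul_right (p ^ (q + 1)) h6
  omega

end Pool.Agent.T6.H37.AP
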