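import Pool.Agent.T6.H37.AP.Grad

/-!
# Spaces of polynomials closed under directional derivatives
-/

set_option autoImplicit false
set_option linter.unusedSectionVars false

namespace Pool.Agent.T6.H37.AP

open Finset Module MvPolynomial

variable {p : ℕ} [hp : Fact p.Prime] {σ : Type} [Fintype σ] [DecidableEq σ]

/-- the derivative in the direction `w` -/
noncomputable def dd (w : σ → ZMod p) : MvPolynomial σ (ZMod p) →ₗ[ZMod p] MvPolynomial σ (ZMod p) :=
  ∑ j, w j • ((pderiv j : Derivation (ZMod p) (MvPolynomial σ (ZMod p)) _) :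
    MvPolynomial σ (ZMod p) →ₗ[ZMod p] MvPolynomial σ (ZMod p))

lemma dd_apply (w : σ → ZMod p) (h : MvPolynomial σ (ZMod p)) :
    dd w h = ∑ j, w j • pderiv j h := by
  simp [dd, LinearMap.sum_apply]

lemma eval_dd (w x : σ → ZMod p) (h : MvPolynomial σ (ZMod p)) :
    eval x (dd w h) = ∑ j, gradAt x h j * w j := by
  rw [dd_apply, map_sum]
  apply Finset.sum_congr rfl
  intro j _
  rw [smul_eval, mul_comm]
  rfl

lemma dd_add (w w' : σ → ZMod p) (h : MvPolynomial σ (ZMod p)) :
    dd (w + w') h = dd w h + dd w' h := by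
  simp only [dd_apply, Pi.add_apply, add_smul, Finset.sum_add_distrib]

lemma dd_zero (h : MvPolynomial σ (ZMod p)) : dd (0 : σ → ZMod p) h = 0 := by
  simp [dd_apply]

lemma pderiv_comm (i j : σ) (h : MvPolynomial σ (ZMod p)) :
    pderiv i (pderiv j h) = pderiv j (pderiv i h) := by
  ext m
  simp only [coeff_pderiv]
  by_cases hij : i = j
  · subst hij
    rfl
  · have h1 : (m + Finsupp.single i 1 : σ →₀ ℕ) j = m j := by
      simp [hij]
    have h2 : (m + Finsupp.single j 1 : σ →₀ ℕ) i = m i := by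
      simp [Ne.symm hij]
    rw [h1, h2, add_right_comm]
    ring

lemma dd_comm (w w' : σ → ZMod p) (h : MvPolynomial σ (ZMod p)) :
    dd w (dd w' h) = dd w' (dd w h) := by
  simp only [dd_apply, map_sum, map_smul, Finset.smul_sum]
  rw [Finset.sum_comm]
  refine Finset.sum_congr rfl fun i _ => Finset.sum_congr rfl fun j _ => ?_
  rw [pderiv_comm, smul_comm]

lemma totalDegree_pderiv_le (j : σ) (h : MvPolynomial σ (ZMod p)) :
    (pderiv j h).totalDegree ≤ h.totalDegree := by
  by_cases h0 : pderiv j h = 0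
  · rw [h0]
    simp
  · obtain ⟨m, hm, hdeg⟩ : ∃ m ∈ (pderiv j h).support,
        (pderiv j h).totalDegree = m.sum fun _ e => e := by
      have hne : (pderiv j h).support.Nonempty := by
        rw [Finset.nonempty_iff_ne_empty]
        intro h1
        exact h0 (support_eq_empty.mp h1)
      obtain ⟨m, hm, h1⟩ := Finset.exists_mem_eq_sup (pderiv j h).support hne
        (fun s => s.sum fun _ e => e)
      exact ⟨m, hm, h1⟩
    rw [hdeg]
    rw [MvPolynomial.mem_support_iff, coeff_pderiv] at hm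
    have h1 : m + Finsupp.single j 1 ∈ h.support := by
      rw [MvPolynomial.mem_support_iff]
      exact left_ne_zero_of_mul hm
    have h2 := le_totalDegree h1
    rw [Finsupp.sum_add_index' (fun _ => rfl) (fun _ _ _ => rfl),
      Finsupp.sum_single_index rfl] at h2
    omega

lemma totalDegree_dd_le (w : σ → ZMod p) (h : MvPolynomial σ (ZMod p)) :
    (dd w h).totalDegree ≤ h.totalDegree := by
  rw [dd_apply]
  refine (totalDegree_finsetSum _ _).trans (Finset.sup_le fun j _ => ?_)
  exact (totalDegree_smul_le _ _).trans (totalDegree_pderiv_le _ _)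

/-- the span of the iterated derivatives in directions of the list -/
noncomputable def VV (V : Submodule (ZMod p) (MvPolynomial σ (ZMod p))) :
    List (σ → ZMod p) → Submodule (ZMod p) (MvPolynomial σ (ZMod p))
  | [] => V
  | w :: l => VV V l ⊔ (VV V l).map (dd w)

variable (V : Submodule (ZMod p) (MvPolynomial σ (ZMod p)))

lemma VV_cons_le {w : σ → ZMod p} {l : List (σ → ZMod p)}
    {W : Submodule (ZMod p) (MvPolynomial σ (ZMod p))} :
    VV V (w :: l) ≤ W ↔ VV V l ≤ W ∧ ∀ h ∈ VV V l, dd w h ∈ W := by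
  rw [VV, sup_le_iff, Submodule.map_le_iff_le_comap]
  rfl

lemma VV_le_cons (w : σ → ZMod p) (l : List (σ → ZMod p)) : VV V l ≤ VV V (w :: l) := le_sup_left

lemma dd_mem {w : σ → ZMod p} {l : List (σ → ZMod p)} {h : MvPolynomial σ (ZMod p)}
    (hh : h ∈ VV V l) : dd w h ∈ VV V (w :: l) :=
  Submodule.mem_sup_right ⟨h, hh, rfl⟩

lemma VV_mono_cons {w : σ → ZMod p} {l l' : List (σ → ZMod p)} (h : VV V l ≤ VV V l') :
    VV V (w :: l) ≤ VV V (w :: l') :=
  sup_le_sup h (Submodule.map_mono h)

lemma VV_swap_le (w w' : σ → ZMod p) (l : List (σ → ZMod p)) :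
    VV V (w :: w' :: l) ≤ VV V (w' :: w :: l) := by
  rw [VV_cons_le]
  refine ⟨VV_mono_cons V (VV_le_cons V w l), ?_⟩
  have h : VV V (w' :: l) ≤ (VV V (w' :: w :: l)).comap (dd w) := by
    rw [VV_cons_le]
    refine ⟨fun h hh => ?_, fun h hh => ?_⟩
    · exact VV_le_cons V _ _ (dd_mem V hh)
    · rw [Submodule.mem_comap, dd_comm]
      exact dd_mem V (dd_mem V hh)
  exact h

lemma VV_perm {l l' : List (σ → ZMod p)} (h : l.Perm l') : VV V l = VV V l' := by
  induction h with
  | nil => rfl
  | cons w _ ih => rw [VV, VV, ih]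
  | swap w w' l => exact le_antisymm (VV_swap_le V _ _ _) (VV_swap_le V _ _ _)
  | trans _ _ h1 h2 => exact h1.trans h2

lemma VV_sublist {l l' : List (σ → ZMod p)} (h : l.Sublist l') : VV V l ≤ VV V l' := by
  induction h with
  | slnil => exact le_rfl
  | cons w _ ih => exact ih.trans (VV_le_cons V _ _)
  | cons_cons w _ ih => exact VV_mono_cons V ih

lemma VV_totalDegree {d : ℕ} (hV : ∀ g ∈ V, g.totalDegree ≤ d) (l : List (σ → ZMod p)) :
    ∀ h ∈ VV V l, h.totalDegree ≤ d := by
  induction l with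
  | nil => exact hV
  | cons w l ih =>
    intro h hh
    obtain ⟨h0, hh0, h1, ⟨h2, hh2, rfl⟩, rfl⟩ := Submodule.mem_sup.1 hh
    exact (totalDegree_add _ _).trans
      (max_le (ih _ hh0) ((totalDegree_dd_le _ _).trans (ih _ hh2)))

lemma VV_add_le (w w' : σ → ZMod p) (l : List (σ → ZMod p)) :
    VV V ((w + w') :: l) ≤ VV V (w :: l) ⊔ VV V (w' :: l) := by
  rw [VV_cons_le]
  refine ⟨(VV_le_cons V w l).trans le_sup_left, fun h hh => ?_⟩
  rw [dd_add]
  exact Submodule.add_mem _ (Submodule.mem_sup_left (dd_mem V hh))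
    (Submodule.mem_sup_right (dd_mem V hh))

lemma VV_zero_le (l : List (σ → ZMod p)) : VV V ((0 : σ → ZMod p) :: l) ≤ VV V l := by
  rw [VV_cons_le]
  refine ⟨le_rfl, fun h _ => ?_⟩
  rw [dd_zero]
  exact Submodule.zero_mem _

lemma VV_neg_le (w : σ → ZMod p) (l : List (σ → ZMod p)) :
    VV V ((-w) :: l) ≤ VV V (w :: l) := by
  rw [VV_cons_le]
  refine ⟨VV_le_cons V w l, fun h hh => ?_⟩
  have h1 : dd (-w) h = - dd w h := by
    rw [eq_neg_iff_add_eq_zero, ← dd_add, neg_add_cancel, dd_zero]
  rw [h1]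
  exact Submodule.neg_mem _ (dd_mem V hh)

/-- all polynomials of `VV V l` vanish at `x` -/
def EE (x : σ → ZMod p) (l : List (σ → ZMod p)) : Prop := ∀ h ∈ VV V l, eval x h = 0

/-- the gradients -/
noncomputable def NN (x : σ → ZMod p) (l : List (σ → ZMod p)) : Submodule (ZMod p) (σ → ZMod p) :=
  (VV V l).map (gradAt x)

variable {V}
variable {x : σ → ZMod p}

/-- evaluation as a linear map -/
noncomputable def evl (x : σ → ZMod p) : MvPolynomial σ (ZMod p) →ₗ[ZMod p] ZMod p where
  toFun g := eval x g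
  map_add' g h := by simp
  map_smul' a g := by simp [smul_eval]

lemma EE_iff {l : List (σ → ZMod p)} : EE V x l ↔ VV V l ≤ LinearMap.ker (evl x) := Iff.rfl

lemma EE_of_le {l l' : List (σ → ZMod p)} (h : VV V l ≤ VV V l') (h' : EE V x l') : EE V x l :=
  fun g hg => h' g (h hg)

lemma EE_perm {l l' : List (σ → ZMod p)} (h : l.Perm l') (h' : EE V x l) : EE V x l' :=
  EE_of_le (VV_perm V h).ge h'

lemma EE_cons {w : σ → ZMod p} {l : List (σ → ZMod p)} :
    EE V x (w :: l) ↔ EE V x l ∧ ∀ ν ∈ NN V x l, ∑ j, ν j * w j = 0 := by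
  rw [EE_iff, VV_cons_le]
  refine and_congr Iff.rfl ?_
  constructor
  · rintro h _ ⟨g, hg, rfl⟩
    rw [← eval_dd]
    exact h g hg
  · intro h g hg
    change eval x (dd w g) = 0
    rw [eval_dd]
    exact h _ ⟨g, hg, rfl⟩

lemma EE_add {w w' : σ → ZMod p} {l : List (σ → ZMod p)} (h : EE V x (w :: l))
    (h' : EE V x (w' :: l)) : EE V x ((w + w') :: l) := by
  rw [EE_iff] at *
  exact (VV_add_le V w w' l).trans (sup_le h h')

lemma EE_neg {w : σ → ZMod p} {l : List (σ → ZMod p)} (h : EE V x (w :: l)) :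
    EE V x ((-w) :: l) := EE_of_le (VV_neg_le V w l) h

lemma EE_sub {w w' : σ → ZMod p} {l : List (σ → ZMod p)} (h : EE V x (w :: l))
    (h' : EE V x (w' :: l)) : EE V x ((w - w') :: l) := by
  rw [sub_eq_add_neg]
  exact EE_add h (EE_neg h')

lemma EE_zero {l : List (σ → ZMod p)} (h : EE V x l) : EE V x (0 :: l) :=
  EE_of_le (VV_zero_le V l) h

lemma EE_tail {w : σ → ZMod p} {l : List (σ → ZMod p)} (h : EE V x (w :: l)) : EE V x l :=
  EE_of_le (VV_le_cons V w l) h

lemma EE_sublist {l l' : List (σ → ZMod p)} (h : l.Sublist l') (h' : EE V x l') : EE V x l :=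
  EE_of_le (VV_sublist V h) h'

lemma NN_perm {l l' : List (σ → ZMod p)} (h : l.Perm l') : NN V x l = NN V x l' := by
  rw [NN, NN, VV_perm V h]

lemma NN_add_le (w w' : σ → ZMod p) (l : List (σ → ZMod p)) :
    finrank (ZMod p) (NN V x ((w + w') :: l)) ≤
      finrank (ZMod p) (NN V x (w :: l)) + finrank (ZMod p) (NN V x (w' :: l)) := by
  have h1 : NN V x ((w + w') :: l) ≤ NN V x (w :: l) ⊔ NN V x (w' :: l) := by
    unfold NN
    rw [← Submodule.map_sup]
    exact Submodule.map_mono (VV_add_le V w w' l)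
  refine (Submodule.finrank_mono h1).trans ?_
  have h2 := Submodule.finrank_sup_add_finrank_inf_eq (NN V x (w :: l)) (NN V x (w' :: l))
  omega

open Classical in
/-- the vectors orthogonal to the gradients -/
lemma card_orth (N : Submodule (ZMod p) (σ → ZMod p)) {h : ℕ} (hN : finrank (ZMod p) N ≤ h) :
    p ^ Fintype.card σ ≤ p ^ h *
      (univ.filter fun w : σ → ZMod p => ∀ ν ∈ N, ∑ j, ν j * w j = 0).card := by
  -- the map to the dual of `N`
  let Λ : (σ → ZMod p) →ₗ[ZMod p] (N →ₗ[ZMod p] ZMod p) :=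
    { toFun := fun w =>
        { toFun := fun ν => ∑ j, ν.1 j * w j
          map_add' := fun a b => by simp [add_mul, Finset.sum_add_distrib]
          map_smul' := fun c a => by simp [Finset.mul_sum, mul_assoc] }
      map_add' := fun a b => by
        ext ν
        simp [mul_add, Finset.sum_add_distrib]
      map_smul' := fun c a => by
        ext ν
        simp only [Pi.smul_apply, smul_eq_mul, LinearMap.coe_mk, AddHom.coe_mk, RingHom.id_apply,
          LinearMap.smul_apply, Finset.mul_sum]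
        exact Finset.sum_congr rfl fun j _ => by ring }
  have h1 := LinearMap.finrank_range_add_finrank_ker Λ
  have h2 : finrank (ZMod p) (LinearMap.range Λ) ≤ h := by
    refine (Submodule.finrank_le _).trans ?_
    rw [Subspace.dual_finrank_eq (K := ZMod p) (V := N)]
    exact hN
  rw [Module.finrank_fintype_fun_eq_card] at h1
  have h3 : Fintype.card (LinearMap.ker Λ) = p ^ finrank (ZMod p) (LinearMap.ker Λ) := by
    rw [Module.card_eq_pow_finrank (K := ZMod p) (V := LinearMap.ker Λ), ZMod.card]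
  have h4 : (univ.filter fun w : σ → ZMod p => ∀ ν ∈ N, ∑ j, ν j * w j = 0).card =
      Fintype.card (LinearMap.ker Λ) := by
    rw [Fintype.card_subtype]
    congr 1
    ext w
    simp only [mem_filter, mem_univ, true_and]
    rw [LinearMap.mem_ker]
    constructor
    · intro hw
      ext ν
      exact hw ν.1 ν.2
    · intro hw ν hν
      exact LinearMap.congr_fun hw ⟨ν, hν⟩
  rw [h4, h3, ← pow_add]
  exact Nat.pow_le_pow_right hp.out.pos (by omega)

end Pool.Agent.T6.H37.AP
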